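import Pool.Agent.N979.CP.Stm

/-! PROJECT CPN2 (helper979): Hadamard's inequality. -/

set_option autoImplicit false

namespace Pool.Agent.N7.CP_HAD

open Pool.Agent.N979.CP

/-- HAD: Hadamard -/
theorem main : S_HAD := by
  intro n A
  let b := EuclideanSpace.basisFun (Fin n) ℝ
  have : Fact (Module.finrank ℝ (EuclideanSpace ℝ (Fin n)) = n) := ⟨by simp⟩
  let o : Orientation ℝ (EuclideanSpace ℝ (Fin n)) (Fin n) := b.toBasis.orientation
  let v : Fin n → EuclideanSpace ℝ (Fin n) := fun i => WithLp.toLp 2 (A i)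
  have h1 := o.abs_volumeForm_apply_le v
  rw [o.volumeForm_robust' b] at h1
  have h2 : b.toBasis.det v = A.det := by
    rw [Module.Basis.det_apply, ← Matrix.det_transpose]
    congr 1
  have h3 : ∀ i, ‖v i‖ ^ 2 = ∑ j, A i j ^ 2 := by
    intro i
    rw [EuclideanSpace.norm_sq_eq]
    simp [v]
  rw [h2] at h1
  calc A.det ^ 2 = |A.det| ^ 2 := (sq_abs _).symm
    _ ≤ (∏ i, ‖v i‖) ^ 2 := pow_le_pow_left₀ (abs_nonneg _) h1 2
    _ = ∏ i, ‖v i‖ ^ 2 := (Finset.prod_pow _ _ _).symm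
    _ = _ := Finset.prod_congr rfl (fun i _ => h3 i)

end Pool.Agent.N7.CP_HAD
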