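import Pool.Agent.W261.TW.Smooth
import Pool.Agent.H385R2.NTW

/-!
Smoothed prime sums with a Gaussian window of any width (subtask MAINTERM of helper880's project).
-/

set_option autoImplicit false

open Filter Topology Set MeasureTheory
open H385 (Rw)
open Pool.Agent.W261.TW

namespace Pool.Agent.N7.MainC

lemma gauss_int_le {β : ℝ} (hβ : 0 < β) {p q : ℝ} (t : ℝ) (h : p ≤ q) :
    ∫ u in p..q, Real.exp (-(β * (u - t) ^ 2)) ≤ Real.sqrt (Real.pi / β) := by
  have h1 : ∫ u : ℝ, Real.exp (-(β * (u - t) ^ 2)) = Real.sqrt (Real.pi / β) := by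
    have h2 := integral_sub_right_eq_self (μ := volume) (fun u : ℝ => Real.exp (-(β * u ^ 2))) t
    rw [h2]
    have h3 := integral_gaussian β
    rw [← h3]
    congr 1
    ext x
    ring_nf
  have hi : Integrable (fun u : ℝ => Real.exp (-(β * (u - t) ^ 2))) := by
    have h4 : Integrable (fun u : ℝ => Real.exp (-(β * u ^ 2))) := by
      have := integrable_exp_neg_mul_sq (b := β) hβ
      refine this.congr (Filter.Eventually.of_forall fun x => ?_)
      simp
    exact h4.comp_sub_right t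
  rw [intervalIntegral.integral_of_le h, ← h1]
  exact setIntegral_le_integral hi (Filter.Eventually.of_forall fun x => (Real.exp_pos _).le)

lemma int_swu_half {β : ℝ} (hβ : 0 < β) (c : ℕ → ℂ) {C : ℝ} (hv : Wt (vv c) C) {L : ℝ} (hL : 0 ≤ L) :
    ∫ u in (0 : ℝ)..L, W388.SWu c (β / 2) u ≤ 2 * Real.exp (2 / β) * (C * S0) * (L + 1) ^ 2 := by
  have h1 : ∫ u in (0 : ℝ)..L, W388.SWu c (β / 2) u ≤
      ∫ u in (0 : ℝ)..L, Real.exp (2 / β) * (L + 1) * EE (vv c) u := by
    apply intervalIntegral.integral_mono_on hL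
    · exact (swu_dom c hv (half_pos hβ)).2.intervalIntegrable _ _
    · exact ((EE_dom hv).2.const_mul _).intervalIntegrable _ _
    · intro u hu
      have := swu_le c hv (half_pos hβ) hu.2 hL
      rwa [one_div_div] at this
  rw [intervalIntegral.integral_const_mul] at h1
  have h2 := int_EE_le hv hL
  calc _ ≤ _ := h1
    _ ≤ Real.exp (2 / β) * (L + 1) * (2 * (C * S0 * (L + 1))) := by gcongr
    _ = _ := by ring

lemma block {β : ℝ} (hβ : 0 < β) (c : ℕ → ℂ) (hc : W388.SelE c) {a b : ℝ} (ha : 0 ≤ a) (hab : a ≤ b) (hb1 : b ≤ 1)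
    {ε : ℝ} (hε : 0 < ε) :
    ∀ᶠ L : ℝ in atTop, ∫ u in (a * L)..(b * L), W388.SWu c β u ≤
      Real.sqrt (Real.pi / β) * L ^ 2 * (b * (b - a) + ε) := by
  obtain ⟨C, hv⟩ := wt_of c hc
  set K := C * S0 with hK
  have hb0 : 0 ≤ b := ha.trans hab
  obtain ⟨η, hη0, hη1, hη2⟩ : ∃ η : ℝ, 0 < η ∧ η ≤ 1 ∧ η ≤ ε / 18 :=
    ⟨min 1 (ε / 18), lt_min one_pos (by positivity), min_le_left _ _, min_le_right _ _⟩
  have hsq : 0 < Real.sqrt (Real.pi / β) := Real.sqrt_pos.2 (div_pos Real.pi_pos hβ)
  have hexp : Tendsto (fun L : ℝ => Real.exp (-(β * (η * L) ^ 2 / 2)) * (8 * Real.exp (2 / β) * K)) atTop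
      (𝓝 0) := by
    have h1 : Tendsto (fun L : ℝ => β * (η * L) ^ 2 / 2) atTop atTop := by
      apply Tendsto.atTop_div_const (by norm_num)
      apply Tendsto.const_mul_atTop hβ
      exact (tendsto_pow_atTop (by norm_num)).comp (tendsto_id.const_mul_atTop hη0)
    have h2 := (Real.tendsto_exp_neg_atTop_nhds_zero.comp h1).mul_const (8 * Real.exp (2 / β) * K)
    rw [zero_mul] at h2
    exact h2
  have hev1 := hexp.eventually (gt_mem_nhds (show (0 : ℝ) < Real.sqrt (Real.pi / β) * (ε / 2) by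
    positivity))
  have hev2 := VV_diff c hc (a := a) (b := b) (η := η) hb0 hη0
  filter_upwards [hev1, hev2, eventually_ge_atTop 1] with L h1 h2 hL1
  have hL0 : 0 < L := by linarith
  set lo := (a - η) * L with hlo
  set hi := (b + η) * L with hhi
  have hlohi : lo ≤ hi := by
    apply mul_le_mul_of_nonneg_right _ hL0.le
    linarith
  set NL := (Finset.Icc 1 ⌊Real.exp hi⌋₊).filter (fun n : ℕ => lo < Real.log n) with hNL
  have hle : a * L ≤ b * L := mul_le_mul_of_nonneg_right hab hL0.le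
  -- pointwise bound
  have hpt : ∀ u ∈ Set.Icc (a * L) (b * L), W388.SWu c β u ≤
      (∑ n ∈ NL, ArithmeticFunction.vonMangoldt n ^ 2 * ‖c n‖ ^ 2 / n * Real.exp (-(β * (u - Real.log n) ^ 2))) +
        Real.exp (-(β * (η * L) ^ 2 / 2)) * W388.SWu c (β / 2) u := by
    intro u hu
    have hs1 := (swu_dom c hv hβ).1 u
    have hs2 := (swu_dom c hv (half_pos hβ)).1 u
    have hfin : HasSum (fun n : ℕ => if n ∈ NL then
        ArithmeticFunction.vonMangoldt n ^ 2 * ‖c n‖ ^ 2 / n * Real.exp (-(β * (u - Real.log n) ^ 2)) else 0)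
        (∑ n ∈ NL, ArithmeticFunction.vonMangoldt n ^ 2 * ‖c n‖ ^ 2 / n * Real.exp (-(β * (u - Real.log n) ^ 2))) := by
      have h8 : HasSum (fun n : ℕ => if n ∈ NL then
        ArithmeticFunction.vonMangoldt n ^ 2 * ‖c n‖ ^ 2 / n * Real.exp (-(β * (u - Real.log n) ^ 2)) else 0)
        (∑ n ∈ NL, if n ∈ NL then
        ArithmeticFunction.vonMangoldt n ^ 2 * ‖c n‖ ^ 2 / n * Real.exp (-(β * (u - Real.log n) ^ 2)) else 0) :=
        hasSum_sum_of_ne_finset_zero (fun n hn => if_neg hn)
      convert h8 using 1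
      apply Finset.sum_congr rfl
      intro n hn
      rw [if_pos hn]
    have hR := hfin.add (hs2.hasSum.mul_left (Real.exp (-(β * (η * L) ^ 2 / 2))))
    refine hasSum_le ?_ hs1.hasSum hR
    intro n
    have hG2 := swu_nonneg_term c (β / 2) n u
    by_cases hn : n ∈ NL
    · simp only [if_pos hn]
      have := mul_nonneg (Real.exp_pos (-(β * (η * L) ^ 2 / 2))).le hG2
      linarith
    · simp only [if_neg hn, zero_add]
      rcases Nat.eq_zero_or_pos n with h0 | h0
      · subst h0
        simp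
      · have hfar : (η * L) ^ 2 ≤ (u - Real.log n) ^ 2 := by
          have hn0 : (0 : ℝ) < n := by exact_mod_cast h0
          have hηL : 0 ≤ η * L := by positivity
          by_cases h3 : n ≤ ⌊Real.exp hi⌋₊
          · have h4 : ¬ lo < Real.log n := by
              intro h5
              apply hn
              rw [hNL, Finset.mem_filter, Finset.mem_Icc]
              exact ⟨⟨h0, h3⟩, h5⟩
            rw [not_lt] at h4
            have h5 : η * L ≤ u - Real.log n := by
              have := hu.1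
              have e : lo = a * L - η * L := by rw [hlo]; ring
              linarith
            exact pow_le_pow_left₀ hηL h5 2
          · have h4 : Real.exp hi < n := by
              rw [not_le] at h3
              exact (Nat.floor_lt (Real.exp_pos _).le).1 h3
            have h5 : hi < Real.log n := (Real.lt_log_iff_exp_lt hn0).2 h4
            have h6 : η * L ≤ Real.log n - u := by
              have := hu.2
              have e : hi = b * L + η * L := by rw [hhi]; ring
              linarith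
            have h7 := pow_le_pow_left₀ hηL h6 2
            calc (η * L) ^ 2 ≤ (Real.log n - u) ^ 2 := h7
              _ = (u - Real.log n) ^ 2 := by ring
        have hLam : 0 ≤ ArithmeticFunction.vonMangoldt n := ArithmeticFunction.vonMangoldt_nonneg
        have h5 : Real.exp (-(β * (u - Real.log n) ^ 2)) ≤
            Real.exp (-(β * (η * L) ^ 2 / 2)) * Real.exp (-(β / 2 * (u - Real.log n) ^ 2)) := by
          rw [← Real.exp_add]
          apply Real.exp_le_exp.2
          have := mul_le_mul_of_nonneg_left hfar hβ.le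
          linarith
        calc _ ≤ ArithmeticFunction.vonMangoldt n ^ 2 * ‖c n‖ ^ 2 / n * (Real.exp (-(β * (η * L) ^ 2 / 2)) *
            Real.exp (-(β / 2 * (u - Real.log n) ^ 2))) := by gcongr
          _ = _ := by ring
  -- integrate
  have hcont1 : ∀ n : ℕ, Continuous fun u : ℝ =>
      ArithmeticFunction.vonMangoldt n ^ 2 * ‖c n‖ ^ 2 / n * Real.exp (-(β * (u - Real.log n) ^ 2)) := fun n => by fun_prop
  have hcS := (swu_dom c hv (half_pos hβ)).2
  have hint : ∫ u in (a * L)..(b * L), W388.SWu c β u ≤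
      (∑ n ∈ NL, ∫ u in (a * L)..(b * L),
        ArithmeticFunction.vonMangoldt n ^ 2 * ‖c n‖ ^ 2 / n * Real.exp (-(β * (u - Real.log n) ^ 2))) +
        Real.exp (-(β * (η * L) ^ 2 / 2)) * ∫ u in (a * L)..(b * L), W388.SWu c (β / 2) u := by
    rw [← intervalIntegral.integral_const_mul, ← intervalIntegral.integral_finsetSum
      (fun n _ => (hcont1 n).intervalIntegrable _ _), ← intervalIntegral.integral_add]
    · apply intervalIntegral.integral_mono_on hle
      · exact (swu_dom c hv hβ).2.intervalIntegrable _ _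
      · exact ((continuous_finsetSum _ fun n _ => hcont1 n).add
          (hcS.const_mul _)).intervalIntegrable _ _
      · exact hpt
    · exact (continuous_finsetSum _ fun n _ => hcont1 n).intervalIntegrable _ _
    · exact (hcS.const_mul _).intervalIntegrable _ _
  have hA : (∑ n ∈ NL, ∫ u in (a * L)..(b * L),
        ArithmeticFunction.vonMangoldt n ^ 2 * ‖c n‖ ^ 2 / n * Real.exp (-(β * (u - Real.log n) ^ 2))) ≤
      Real.sqrt (Real.pi / β) * hi * (VV c (Real.exp hi) - VV c (Real.exp lo)) := by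
    rw [← VV_sub c hlohi, Finset.mul_sum]
    apply Finset.sum_le_sum
    intro n hn
    rw [hNL, Finset.mem_filter, Finset.mem_Icc] at hn
    have hn0 : (0 : ℝ) < n := by exact_mod_cast hn.1.1
    have h3 : Real.log n ≤ hi := by
      rw [Real.log_le_iff_le_exp hn0]
      exact (Nat.le_floor_iff (Real.exp_pos _).le).1 hn.1.2
    have h4 : ArithmeticFunction.vonMangoldt n ≤ hi := ArithmeticFunction.vonMangoldt_le_log.trans h3
    have h5 : 0 ≤ ArithmeticFunction.vonMangoldt n := ArithmeticFunction.vonMangoldt_nonneg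
    have h6 := vv_nonneg c n
    rw [intervalIntegral.integral_const_mul]
    calc ArithmeticFunction.vonMangoldt n ^ 2 * ‖c n‖ ^ 2 / n * ∫ u in (a * L)..(b * L), Real.exp (-(β * (u - Real.log n) ^ 2))
        ≤ ArithmeticFunction.vonMangoldt n ^ 2 * ‖c n‖ ^ 2 / n * Real.sqrt (Real.pi / β) := by
          apply mul_le_mul_of_nonneg_left (gauss_int_le hβ _ hle)
          positivity
      _ = Real.sqrt (Real.pi / β) * (ArithmeticFunction.vonMangoldt n * vv c n) := by unfold vv; ring
      _ ≤ Real.sqrt (Real.pi / β) * (hi * vv c n) := by gcongr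
      _ = _ := by ring
  have hB : ∫ u in (a * L)..(b * L), W388.SWu c (β / 2) u ≤ 8 * Real.exp (2 / β) * K * L ^ 2 := by
    have h3 : ∫ u in (a * L)..(b * L), W388.SWu c (β / 2) u ≤
        ∫ u in (0 : ℝ)..L, W388.SWu c (β / 2) u := by
      apply intervalIntegral.integral_mono_interval
      · positivity
      · exact hle
      · nlinarith
      · exact Filter.Eventually.of_forall fun u => swu_nonneg c _ u
      · exact hcS.intervalIntegrable _ _
    have h4 := int_swu_half hβ c hv hL0.le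
    have hK0 : 0 ≤ K := by
      have h5 := hv.C_nonneg
      have h6 : 0 ≤ S0 := tsum_nonneg fun j => by positivity
      positivity
    calc _ ≤ 2 * Real.exp (2 / β) * K * (L + 1) ^ 2 := h3.trans h4
      _ ≤ 2 * Real.exp (2 / β) * K * (2 * L) ^ 2 := by
          gcongr
          linarith
      _ = _ := by ring
  have hE := (Real.exp_pos (-(β * (η * L) ^ 2 / 2)))
  have hhi0 : 0 ≤ hi := by positivity
  calc _ ≤ _ := hint
    _ ≤ Real.sqrt (Real.pi / β) * hi * ((b - a + 4 * η) * L) +
        Real.exp (-(β * (η * L) ^ 2 / 2)) * (8 * Real.exp (2 / β) * K * L ^ 2) := by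
        apply add_le_add
        · exact hA.trans (mul_le_mul_of_nonneg_left h2 (by positivity))
        · exact mul_le_mul_of_nonneg_left hB hE.le
    _ = Real.sqrt (Real.pi / β) * L ^ 2 * ((b + η) * (b - a + 4 * η)) +
        (Real.exp (-(β * (η * L) ^ 2 / 2)) * (8 * Real.exp (2 / β) * K)) * L ^ 2 := by
        rw [hhi]; ring
    _ ≤ Real.sqrt (Real.pi / β) * L ^ 2 * (b * (b - a) + ε / 2) +
        (Real.sqrt (Real.pi / β) * (ε / 2)) * L ^ 2 := by
        have h3 : (b + η) * (b - a + 4 * η) ≤ b * (b - a) + ε / 2 := by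
          nlinarith
        gcongr
    _ = _ := by ring

lemma main_term {β : ℝ} (hβ : 0 < β) (c : ℕ → ℂ) (hc : W388.SelE c) (γ : ℝ) (h0 : 0 < γ) (hπ : γ < Real.pi) (ε : ℝ)
    (hε : 0 < ε) : ∃ L0 : ℝ, 0 < L0 ∧ ∀ L : ℝ, L0 ≤ L →
    ∫ u in (0 : ℝ)..L, Rw γ (u / L) * W388.SWu c β u ≤
      Real.sqrt (Real.pi / β) * L ^ 2 * ((∫ α in (0 : ℝ)..1, α * Rw γ α) + ε) := by
  obtain ⟨C, hv⟩ := wt_of c hc
  obtain ⟨KR, hKR, hlip⟩ := H385.Rw_lip γ h0 hπ
  have hcR : Continuous (Rw γ) := by
    have : LipschitzWith (Real.toNNReal KR) (Rw γ) := by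
      apply LipschitzWith.of_dist_le_mul
      intro x y
      rw [Real.dist_eq, Real.dist_eq, Real.coe_toNNReal _ hKR.le]
      exact hlip x y
    exact this.continuous
  have hRn := H385.Rw_nonneg γ h0 hπ
  have hanti := H385.Rw_antitone γ h0 hπ
  set R0 := Rw γ 0 with hR0
  have hR00 : 0 ≤ R0 := hRn 0
  obtain ⟨m, hm⟩ := exists_nat_gt ((KR + R0) / (ε / 2) + 1)
  have hm0 : (0 : ℝ) < m := by
    have : 0 ≤ (KR + R0) / (ε / 2) := by positivity
    linarith
  have hm1 : (KR + R0) / m ≤ ε / 2 := by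
    rw [div_le_iff₀ hm0]
    have h1 : (KR + R0) / (ε / 2) ≤ m := by linarith
    rw [div_le_iff₀ (by positivity)] at h1
    linarith
  set ε' := ε / (2 * m * (R0 + 1)) with hε'
  have hε'0 : 0 < ε' := by positivity
  have hev : ∀ᶠ L : ℝ in atTop, ∀ i ∈ Finset.range m,
      ∫ u in ((i : ℝ) / m * L)..(((i + 1 : ℕ) : ℝ) / m * L), W388.SWu c β u ≤
      Real.sqrt (Real.pi / β) * L ^ 2 *
        ((((i + 1 : ℕ) : ℝ) / m) * ((((i + 1 : ℕ) : ℝ) / m) - (i : ℝ) / m) + ε') := by
    rw [Filter.eventually_all_finset]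
    intro i hi
    rw [Finset.mem_range] at hi
    apply block hβ c hc (by positivity) _ _ hε'0
    · gcongr
      linarith
    · rw [div_le_one hm0]
      exact_mod_cast hi
  obtain ⟨L0, hL0⟩ := (hev.and (eventually_gt_atTop 0)).exists_forall_of_atTop
  refine ⟨max L0 1, by positivity, ?_⟩
  intro L hL
  obtain ⟨hbl, hLpos⟩ := hL0 L ((le_max_left _ _).trans hL)
  have hcS := (swu_dom c hv hβ).2
  have hcf : Continuous fun u : ℝ => Rw γ (u / L) * W388.SWu c β u :=
    (hcR.comp (continuous_id.div_const L)).mul hcS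
  have hcg : Continuous fun α : ℝ => α * Rw γ α := continuous_id.mul hcR
  have hsplit1 : ∫ u in (0 : ℝ)..L, Rw γ (u / L) * W388.SWu c β u =
      ∑ i ∈ Finset.range m, ∫ u in ((i : ℝ) / m * L)..(((i + 1 : ℕ) : ℝ) / m * L),
        Rw γ (u / L) * W388.SWu c β u := by
    have := intervalIntegral.sum_integral_adjacent_intervals (a := fun i : ℕ => (i : ℝ) / m * L)
      (n := m) (f := fun u : ℝ => Rw γ (u / L) * W388.SWu c β u) (μ := volume)
      (fun i _ => hcf.intervalIntegrable _ _)
    rw [this]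
    congr 1
    · simp
    · rw [div_self hm0.ne', one_mul]
  have hsplit2 : ∫ α in (0 : ℝ)..1, α * Rw γ α =
      ∑ i ∈ Finset.range m, ∫ α in ((i : ℝ) / m)..(((i + 1 : ℕ) : ℝ) / m), α * Rw γ α := by
    have := intervalIntegral.sum_integral_adjacent_intervals (a := fun i : ℕ => (i : ℝ) / m)
      (n := m) (f := fun α : ℝ => α * Rw γ α) (μ := volume)
      (fun i _ => hcg.intervalIntegrable _ _)
    rw [this]
    congr 1
    · simp
    · rw [div_self hm0.ne']
  rw [hsplit1, hsplit2]
  have hterm : ∀ i ∈ Finset.range m, ∫ u in ((i : ℝ) / m * L)..(((i + 1 : ℕ) : ℝ) / m * L),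
        Rw γ (u / L) * W388.SWu c β u ≤ Real.sqrt (Real.pi / β) * L ^ 2 *
        ((∫ α in ((i : ℝ) / m)..(((i + 1 : ℕ) : ℝ) / m), α * Rw γ α) + ε / m) := by
    intro i hi
    have hb := hbl i hi
    rw [Finset.mem_range] at hi
    set x := (i : ℝ) / m with hx
    set y := ((i + 1 : ℕ) : ℝ) / m with hy
    have hyx : y = x + 1 / m := by
      rw [hx, hy]
      push_cast
      ring
    have hx0 : 0 ≤ x := by positivity
    have h1m : 0 < 1 / (m : ℝ) := by positivity
    have hxy : x ≤ y := by linarith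
    have hy1 : y ≤ 1 := by
      rw [hy, div_le_one hm0]
      exact_mod_cast hi
    have hx1 : x ≤ 1 := hxy.trans hy1
    have hxyL : x * L ≤ y * L := mul_le_mul_of_nonneg_right hxy hLpos.le
    -- upper bound
    have hup : ∫ u in (x * L)..(y * L), Rw γ (u / L) * W388.SWu c β u ≤
        Rw γ x * ∫ u in (x * L)..(y * L), W388.SWu c β u := by
      rw [← intervalIntegral.integral_const_mul]
      apply intervalIntegral.integral_mono_on hxyL (hcf.intervalIntegrable _ _)
        ((hcS.const_mul _).intervalIntegrable _ _)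
      intro u hu
      apply mul_le_mul_of_nonneg_right _ (swu_nonneg c β u)
      have h1 : x ≤ u / L := by
        rw [le_div_iff₀ hLpos]
        exact hu.1
      exact hanti (Set.mem_Ici.2 hx0) (Set.mem_Ici.2 (hx0.trans h1)) h1
    -- lower bound
    have hlow : 1 / m * (x * Rw γ y) ≤ ∫ α in x..y, α * Rw γ α := by
      calc 1 / m * (x * Rw γ y) = ∫ _α in x..y, x * Rw γ y := by
            rw [intervalIntegral.integral_const, smul_eq_mul]
            congr 1
            rw [hyx]
            ring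
        _ ≤ _ := by
            apply intervalIntegral.integral_mono_on hxy
              (continuous_const.intervalIntegrable _ _) (hcg.intervalIntegrable _ _)
            intro α hα
            apply mul_le_mul hα.1 _ (hRn y) (hx0.trans hα.1)
            exact hanti (Set.mem_Ici.2 (hx0.trans hα.1)) (Set.mem_Ici.2 (hx0.trans hxy)) hα.2
    have hRx : Rw γ x ≤ R0 := hanti (Set.mem_Ici.2 le_rfl) (Set.mem_Ici.2 hx0) hx0
    have hRxy : Rw γ x ≤ Rw γ y + KR * (1 / m) := by
      have h1 := hlip x y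
      have h2 : |x - y| = 1 / m := by
        rw [hyx]
        rw [show x - (x + 1 / m) = -(1 / (m : ℝ)) by ring, abs_neg, abs_of_pos h1m]
      rw [h2] at h1
      have h3 := le_abs_self (Rw γ x - Rw γ y)
      linarith
    have hsq : 0 ≤ Real.sqrt (Real.pi / β) * L ^ 2 := by positivity
    have hRx0 := hRn x
    have hfinal : Rw γ x * (y * (y - x) + ε') ≤ 1 / m * (x * Rw γ y) + ε / m := by
      have e1 : y * (y - x) = 1 / m * x + 1 / m * (1 / m) := by
        rw [hyx]; ring
      rw [e1]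
      have e2 : Rw γ x * ε' ≤ (ε / 2) * (1 / m) := by
        calc Rw γ x * ε' ≤ (R0 + 1) * ε' := by
              apply mul_le_mul_of_nonneg_right _ hε'0.le
              linarith
          _ = (ε / 2) * (1 / m) := by
              rw [hε']
              field_simp
      have e3 : Rw γ x * (1 / m * x) ≤ (Rw γ y + KR * (1 / m)) * (1 / m * x) :=
        mul_le_mul_of_nonneg_right hRxy (by positivity)
      have e4 : KR * (1 / m) * (1 / m * x) ≤ KR * (1 / m) * (1 / m) := by
        have : 1 / (m : ℝ) * x ≤ 1 / m := by nlinarith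
        gcongr
      have e5 : Rw γ x * (1 / m * (1 / m)) ≤ R0 * (1 / m * (1 / m)) := by gcongr
      have e6 : (KR + R0) * (1 / m) * (1 / m) ≤ (ε / 2) * (1 / m) := by
        apply mul_le_mul_of_nonneg_right _ h1m.le
        rw [mul_one_div]
        exact hm1
      have e7 : ε / m = (ε / 2) * (1 / m) + (ε / 2) * (1 / m) := by ring
      rw [e7]
      nlinarith
    calc _ ≤ _ := hup
      _ ≤ Rw γ x * (Real.sqrt (Real.pi / β) * L ^ 2 * (y * (y - x) + ε')) :=
          mul_le_mul_of_nonneg_left hb hRx0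
      _ = Real.sqrt (Real.pi / β) * L ^ 2 * (Rw γ x * (y * (y - x) + ε')) := by ring
      _ ≤ Real.sqrt (Real.pi / β) * L ^ 2 * (1 / m * (x * Rw γ y) + ε / m) :=
          mul_le_mul_of_nonneg_left hfinal hsq
      _ ≤ _ := by
          apply mul_le_mul_of_nonneg_left _ hsq
          linarith
  calc _ ≤ _ := Finset.sum_le_sum hterm
    _ = _ := by
        rw [← Finset.mul_sum, Finset.sum_add_distrib, Finset.sum_const, Finset.card_range,
          nsmul_eq_mul]
        congr 2
        field_simp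


/-! ### the constant sequence -/

theorem selE_one : W388.SelE (fun _ => (1 : ℂ)) := by
  unfold W388.SelE
  simp only [norm_one, one_pow, mul_one]
  have hb : ∀ x : ℝ, 2 ≤ x →
      |(∑ n ∈ Finset.Icc 1 ⌊x⌋₊, ArithmeticFunction.vonMangoldt n / (n : ℝ)) - Real.log x| ≤ 7 := by
    intro x hx
    have hx0 : 0 < x := by linarith
    have hN : 1 ≤ ⌊x⌋₊ := (Nat.one_le_floor_iff x).2 (by linarith)
    have hN0 : (0 : ℝ) < ⌊x⌋₊ := by exact_mod_cast hN
    have h1 := H370.nt_mertens_lower ⌊x⌋₊ hN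
    have h2 := H370.nt_mertens_upper ⌊x⌋₊ hN
    have h3 : Real.log (⌊x⌋₊ : ℝ) ≤ Real.log x := Real.log_le_log hN0 (Nat.floor_le hx0.le)
    have h4 : Real.log x ≤ Real.log (⌊x⌋₊ : ℝ) + 1 := by
      have h5 : x ≤ 2 * (⌊x⌋₊ : ℝ) := by
        have := Nat.lt_floor_add_one x
        have hN1 : (1 : ℝ) ≤ ⌊x⌋₊ := by exact_mod_cast hN
        linarith
      calc Real.log x ≤ Real.log (2 * (⌊x⌋₊ : ℝ)) := Real.log_le_log hx0 h5
        _ = Real.log 2 + Real.log (⌊x⌋₊ : ℝ) := Real.log_mul (by norm_num) hN0.ne'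
        _ ≤ _ := by
          have := Real.log_two_lt_d9
          linarith
    rw [abs_le]
    constructor <;> linarith
  have hlog : Tendsto (fun x : ℝ => 7 / Real.log x) atTop (𝓝 0) :=
    Tendsto.div_atTop tendsto_const_nhds Real.tendsto_log_atTop
  rw [← tendsto_sub_nhds_zero_iff]
  refine squeeze_zero_norm' ?_ hlog
  filter_upwards [eventually_ge_atTop 3] with x hx
  have hl : 0 < Real.log x := Real.log_pos (by linarith)
  rw [Real.norm_eq_abs, div_sub_one hl.ne', abs_div, abs_of_pos hl]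
  exact div_le_div_of_nonneg_right (hb x (by linarith)) hl.le

/-- the smoothed prime sum of width `c` -/
noncomputable def inner (c u : ℝ) : ℝ :=
  c ^ 2 * ∑' n : ℕ, ArithmeticFunction.vonMangoldt n ^ 2 / n *
    Real.exp (-(u - c * Real.log n) ^ 2)

theorem term_eq {c : ℝ} (hc : 0 < c) (u : ℝ) (n : ℕ) :
    ArithmeticFunction.vonMangoldt n ^ 2 * ‖(1 : ℂ)‖ ^ 2 / n *
      Real.exp (-(c ^ 2 * (u / c - Real.log n) ^ 2)) =
    ArithmeticFunction.vonMangoldt n ^ 2 / n * Real.exp (-(u - c * Real.log n) ^ 2) := by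
  have h1 : c ^ 2 * (u / c - Real.log n) ^ 2 = (u - c * Real.log n) ^ 2 := by
    rw [← mul_pow]
    congr 1
    field_simp
  rw [h1, norm_one, one_pow, mul_one]

theorem inner_eq {c : ℝ} (hc : 0 < c) (u : ℝ) :
    inner c u = c ^ 2 * W388.SWu (fun _ => 1) (c ^ 2) (u / c) := by
  unfold inner W388.SWu
  congr 1
  exact tsum_congr fun n => (term_eq hc u n).symm

/-- summability -/
theorem inner_summable {c : ℝ} (hc : 0 < c) (u : ℝ) :
    Summable (fun n : ℕ => ArithmeticFunction.vonMangoldt n ^ 2 / n *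
      Real.exp (-(u - c * Real.log n) ^ 2)) := by
  obtain ⟨C, hv⟩ := wt_of _ selE_one
  refine ((swu_dom (fun _ => (1 : ℂ)) hv (pow_pos hc 2)).1 (u / c)).congr fun n => ?_
  exact term_eq hc u n

theorem inner_continuous {c : ℝ} (hc : 0 < c) : Continuous (inner c) := by
  obtain ⟨C, hv⟩ := wt_of _ selE_one
  have h := (swu_dom (fun _ => (1 : ℂ)) hv (pow_pos hc 2)).2
  have h2 : inner c = fun u => c ^ 2 * W388.SWu (fun _ => 1) (c ^ 2) (u / c) := by
    funext u
    exact inner_eq hc u
  rw [h2]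
  exact continuous_const.mul (h.comp (continuous_id.div_const c))

theorem inner_nonneg (c u : ℝ) : 0 ≤ inner c u :=
  mul_nonneg (sq_nonneg c) (tsum_nonneg fun n => by positivity)

/-- linear bound -/
theorem inner_le (c : ℝ) (hc : 1 ≤ c) : ∃ C : ℝ, 0 < C ∧ ∀ u : ℝ, 0 ≤ u →
    inner c u ≤ C * (u + 1) := by
  obtain ⟨C, hC, h⟩ := H385.lam_sq_crude
  have hc0 : 0 < c := by linarith
  refine ⟨c ^ 2 * C, by positivity, fun u hu => ?_⟩
  have hu' : 0 ≤ u / c := by positivity
  obtain ⟨h1, h2⟩ := h (u / c) hu'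
  unfold inner
  rw [mul_assoc]
  refine mul_le_mul_of_nonneg_left ?_ (sq_nonneg c)
  calc _ ≤ ∑' n : ℕ, (ArithmeticFunction.vonMangoldt n) ^ 2 / n *
        Real.exp (-(u / c - Real.log n) ^ 2 / 2) := by
        refine Summable.tsum_le_tsum (fun n => ?_) (inner_summable hc0 u) h1
        refine mul_le_mul_of_nonneg_left (Real.exp_le_exp.2 ?_) (by positivity)
        have h3 : (u - c * Real.log n) ^ 2 = c ^ 2 * (u / c - Real.log n) ^ 2 := by
          rw [← mul_pow]
          congr 1
          field_simp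
        rw [h3]
        have h4 : 1 ≤ c ^ 2 := one_le_pow₀ hc
        nlinarith [sq_nonneg (u / c - Real.log n)]
    _ ≤ C * (u / c + 1) := h2
    _ ≤ C * (u + 1) := by
        have : u / c ≤ u := div_le_self hu hc
        gcongr

/-- **the main term** -/
theorem main_c (c : ℝ) (hc : 1 ≤ c) (γ : ℝ) (h0 : 0 < γ) (hπ : γ < Real.pi) (ε : ℝ)
    (hε : 0 < ε) : ∃ L0 : ℝ, 0 < L0 ∧ ∀ L : ℝ, L0 ≤ L →
    ∫ u in (0 : ℝ)..L, H385.Rw γ (u / L) * (c ^ 2 * ∑' n : ℕ,
      ArithmeticFunction.vonMangoldt n ^ 2 / n * Real.exp (-(u - c * Real.log n) ^ 2)) ≤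
      Real.sqrt Real.pi * L ^ 2 * ((∫ α in (0 : ℝ)..1, α * H385.Rw γ α) + ε) := by
  have hc0 : 0 < c := by linarith
  obtain ⟨L0, hL0, h⟩ := main_term (pow_pos hc0 2) (fun _ => (1 : ℂ)) selE_one γ h0 hπ ε hε
  refine ⟨c * L0, by positivity, fun L hL => ?_⟩
  have hLpos : 0 < L := lt_of_lt_of_le (by positivity) hL
  have h1 := h (L / c) (by rw [le_div_iff₀ hc0]; linarith)
  have h2 : ∫ u in (0 : ℝ)..L, H385.Rw γ (u / L) * (c ^ 2 * ∑' n : ℕ,
      ArithmeticFunction.vonMangoldt n ^ 2 / n * Real.exp (-(u - c * Real.log n) ^ 2)) =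
      c * ∫ w in (0 : ℝ)..(L / c), H385.Rw γ (w / (L / c)) *
        (c ^ 2 * W388.SWu (fun _ => 1) (c ^ 2) w) := by
    have h3 := intervalIntegral.integral_comp_mul_left
      (a := 0) (b := L / c) (fun u => H385.Rw γ (u / L) * (c ^ 2 * ∑' n : ℕ,
      ArithmeticFunction.vonMangoldt n ^ 2 / n * Real.exp (-(u - c * Real.log n) ^ 2))) hc0.ne'
    rw [mul_zero, mul_div_cancel₀ _ hc0.ne', smul_eq_mul] at h3
    have h4 : ∀ w : ℝ, H385.Rw γ (w / (L / c)) * (c ^ 2 * W388.SWu (fun _ => 1) (c ^ 2) w) =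
        H385.Rw γ (c * w / L) * (c ^ 2 * ∑' n : ℕ,
      ArithmeticFunction.vonMangoldt n ^ 2 / n * Real.exp (-(c * w - c * Real.log n) ^ 2)) := by
      intro w
      have h5 := inner_eq hc0 (c * w)
      rw [mul_div_cancel_left₀ _ hc0.ne'] at h5
      rw [← h5]
      unfold inner
      congr 2
      field_simp
    simp only [h4]
    rw [h3, ← mul_assoc, mul_inv_cancel₀ hc0.ne', one_mul]
  rw [h2]
  have h6 : ∫ w in (0 : ℝ)..(L / c), H385.Rw γ (w / (L / c)) *
        (c ^ 2 * W388.SWu (fun _ => 1) (c ^ 2) w) =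
      c ^ 2 * ∫ w in (0 : ℝ)..(L / c), H385.Rw γ (w / (L / c)) *
        W388.SWu (fun _ => 1) (c ^ 2) w := by
    rw [← intervalIntegral.integral_const_mul]
    congr 1
    funext w
    ring
  rw [h6]
  have h7 : Real.sqrt (Real.pi / c ^ 2) = Real.sqrt Real.pi / c := by
    rw [Real.sqrt_div Real.pi_pos.le, Real.sqrt_sq hc0.le]
  rw [h7] at h1
  calc _ ≤ c * (c ^ 2 * (Real.sqrt Real.pi / c * (L / c) ^ 2 *
        ((∫ α in (0 : ℝ)..1, α * H385.Rw γ α) + ε))) := by gcongr
    _ = _ := by field_simp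

end Pool.Agent.N7.MainC
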