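import Pool.Agent.N945.TB_SPLIT

/-!
# Project TC: splitting with parts of different sizes
-/

set_option autoImplicit false

namespace Pool.Agent.N7.TCSPLIT2

open Finset
open Pool.Agent.N945.TBSPLIT (SKon)

/-- labels of the units of one edge -/
theorem labels (N M : ℕ) (w : ℕ → ℕ) (h : ∑ l ∈ range N, w l = M) :
    ∃ f : ℕ → ℕ, (∀ k < M, f k < N) ∧ ∀ l < N, ((range M).filter fun k => f k = l).card = w l := by
  classical
  obtain ⟨f, hf1, hf2⟩ := Pool.Agent.N945.TBSPLIT.labels N M w h
  refine ⟨fun k => if h : k < M then f ⟨k, h⟩ else 0, ?_, ?_⟩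
  · intro k hk
    simp only [hk, dif_pos]
    exact hf1 _
  · intro l hl
    rw [← hf2 l hl]
    symm
    refine card_bij (fun k _ => (k : ℕ)) ?_ ?_ ?_
    · intro k hk
      rw [mem_filter] at hk ⊢
      refine ⟨mem_range.2 k.2, ?_⟩
      simp only [k.2, dif_pos]
      exact hk.2
    · intro k _ k' _ hkk
      exact Fin.ext hkk
    · intro k hk
      rw [mem_filter, mem_range] at hk
      refine ⟨⟨k, hk.1⟩, ?_, rfl⟩
      rw [mem_filter]
      refine ⟨mem_univ _, ?_⟩
      have := hk.2
      simp only [hk.1, dif_pos] at this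
      exact this

/-- symmetric labels of all edges -/
theorem labels_sym {V : Type} [Fintype V] [DecidableEq V] (H : SimpleGraph V) (n : V → ℕ) (N : ℕ)
    (w : ℕ → V → V → ℕ) (hs : ∀ l u v, w l u v = w l v u)
    (h1 : ∀ u v, H.Adj u v → ∑ l ∈ range N, w l u v = n u * n v) :
    ∃ lab : V → V → ℕ → ℕ, (∀ u v, lab u v = lab v u) ∧
      (∀ u v, H.Adj u v → ∀ k < n u * n v, lab u v k < N) ∧
      ∀ u v, H.Adj u v → ∀ l < N,
        ((range (n u * n v)).filter fun k => lab u v k = l).card = w l u v := by
  classical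
  have h2 : ∀ u v, ∃ f : ℕ → ℕ, H.Adj u v → (∀ k < n u * n v, f k < N) ∧
      ∀ l < N, ((range (n u * n v)).filter fun k => f k = l).card = w l u v := by
    intro u v
    by_cases h : H.Adj u v
    · obtain ⟨f, hf⟩ := labels N (n u * n v) (fun l => w l u v) (h1 u v h)
      exact ⟨f, fun _ => hf⟩
    · exact ⟨fun _ => 0, fun h' => absurd h' h⟩
  choose f hf using h2
  obtain ⟨e⟩ : Nonempty (V ≃ Fin (Fintype.card V)) := ⟨Fintype.equivFin V⟩
  refine ⟨fun u v => if e u ≤ e v then f u v else f v u, ?_, ?_, ?_⟩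
  · intro u v
    simp only
    by_cases huv : e u ≤ e v
    · by_cases hvu : e v ≤ e u
      · have : u = v := e.injective (le_antisymm huv hvu)
        subst this
        rfl
      · rw [if_pos huv, if_neg hvu]
    · have hvu : e v ≤ e u := le_of_lt (not_le.1 huv)
      rw [if_neg huv, if_pos hvu]
  · intro u v huv k hk
    simp only
    split_ifs with h
    · exact (hf u v huv).1 k hk
    · rw [mul_comm] at hk
      exact (hf v u huv.symm).1 k hk
  · intro u v huv l hl
    simp only
    split_ifs with h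
    · exact (hf u v huv).2 l hl
    · rw [mul_comm, (hf v u huv.symm).2 l hl, hs]

/-- numbers with a given quotient -/
theorem div_fibre (m M j : ℕ) :
    ((range (m * M)).filter fun k => k / m = j).card ≤ m := by
  classical
  have h1 : ((range (m * M)).filter fun k => k / m = j).card ≤ (range m).card := by
    refine card_le_card_of_injOn (fun k => k % m) ?_ ?_
    · intro k hk
      have hk' := (mem_filter.1 hk).1
      rw [mem_range] at hk'
      have hm : 0 < m := by
        rcases Nat.eq_zero_or_pos m with h | h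
        · subst h
          simp at hk'
        · exact h
      simp only [coe_range, Set.mem_Iio]
      exact Nat.mod_lt _ hm
    · intro k hk k' hk' h
      have h2 : k / m = j := (mem_filter.1 hk).2
      have h3 : k' / m = j := (mem_filter.1 hk').2
      have h4 := Nat.div_add_mod k m
      have h5 := Nat.div_add_mod k' m
      simp only at h
      rw [h2, h] at h4
      rw [h3] at h5
      omega
  rwa [card_range] at h1

/-- one step: a new vertex `v` -/
theorem step (kon : SKon) {V : Type} [Fintype V] [DecidableEq V] (H : SimpleGraph V)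
    (n : V → ℕ) (N : ℕ) (w : ℕ → V → V → ℕ)
    (h2 : ∀ l u, l < N → ∑ v, w l u v ≤ n u)
    (lab : V → V → ℕ → ℕ)
    (hlab1 : ∀ u v, H.Adj u v → ∀ k < n u * n v, lab u v k < N)
    (hlab2 : ∀ u v, H.Adj u v → ∀ l < N,
      ((range (n u * n v)).filter fun k => lab u v k = l).card = w l u v)
    (v : V) (β : V → ℕ → ℕ)
    (hβ : ∀ u, H.Adj v u → ∀ j, ((range (n v * n u)).filter fun k => β u k = j).card ≤ n v) :
    ∃ i : V → ℕ → ℕ,
      (∀ u, H.Adj v u → ∀ k < n v * n u, i u k < n v) ∧
      (∀ u u' k k', H.Adj v u → H.Adj v u' → k < n v * n u → k' < n v * n u' →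
        lab v u k = lab v u' k' → i u k = i u' k' → u = u' ∧ k = k') ∧
      ∀ u k k', H.Adj v u → k < n v * n u → k' < n v * n u → β u k = β u k' → i u k = i u k' →
        k = k' := by
  classical
  have ha : ∀ x : ℕ, (univ.filter fun p : (Σ u : {u // H.Adj v u}, Fin (n v * n u)) =>
      lab v p.1 p.2 = x).card ≤ n v := by
    intro x
    have e0 : (univ.filter fun p : (Σ u : {u // H.Adj v u}, Fin (n v * n u)) =>
        lab v p.1 p.2 = x).card ≤
        ∑ u : {u // H.Adj v u}, ((range (n v * n u)).filter fun k => lab v u k = x).card := by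
      rw [← card_sigma]
      refine card_le_card_of_injOn (fun p => ⟨p.1, (p.2 : ℕ)⟩) ?_ ?_
      · rintro ⟨u, k⟩ hp
        have h3 := (mem_filter.1 hp).2
        simp only [coe_sigma, Set.mem_sigma_iff, coe_univ, Set.mem_univ, true_and]
        exact mem_coe.2 (mem_filter.2 ⟨mem_range.2 k.2, h3⟩)
      · rintro ⟨u, k⟩ hp ⟨u', k'⟩ hp' h
        simp only [Sigma.mk.injEq] at h
        obtain ⟨rfl, h4⟩ := h
        rw [heq_eq_eq] at h4
        rw [Fin.ext h4]
    refine e0.trans ?_
    rcases Nat.lt_or_ge x N with hx | hx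
    · rw [sum_congr rfl fun (u : {u // H.Adj v u}) _ => hlab2 v u u.2 x hx]
      refine le_trans ?_ (h2 x v hx)
      have e3 : ∑ u : {u // H.Adj v u}, w x v u = ∑ u ∈ univ.filter (fun u => H.Adj v u), w x v u :=
        (sum_subtype (univ.filter fun u => H.Adj v u) (p := fun u => H.Adj v u)
          (by simp) (fun u => w x v u)).symm
      rw [e3]
      exact sum_le_sum_of_subset (filter_subset _ _)
    · have e3 : ∀ u : {u // H.Adj v u},
          ((range (n v * n u)).filter fun k => lab v u k = x).card = 0 := by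
        intro u
        rw [card_eq_zero, filter_eq_empty_iff]
        intro k hk h
        have := hlab1 v u u.2 k (mem_range.1 hk)
        omega
      rw [sum_congr rfl fun u _ => e3 u]
      simp
  have hb : ∀ y : V × ℕ, (univ.filter fun p : (Σ u : {u // H.Adj v u}, Fin (n v * n u)) =>
      ((p.1 : V), β p.1 p.2) = y).card ≤ n v := by
    rintro ⟨u, j⟩
    by_cases hu : H.Adj v u
    · refine le_trans ?_ (hβ u hu j)
      refine card_le_card_of_injOn (fun p => (p.2 : ℕ)) ?_ ?_
      · rintro ⟨⟨u', hu'⟩, k⟩ hp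
        have h3 := (mem_filter.1 hp).2
        rw [Prod.mk.injEq] at h3
        simp only at h3
        obtain ⟨rfl, h4⟩ := h3
        exact mem_coe.2 (mem_filter.2 ⟨mem_range.2 k.2, h4⟩)
      · rintro ⟨⟨u', hu'⟩, k⟩ hp ⟨⟨u'', hu''⟩, k'⟩ hp' h
        have h3 := (mem_filter.1 hp).2
        have h4 := (mem_filter.1 hp').2
        rw [Prod.mk.injEq] at h3 h4
        simp only at h3 h4 h
        obtain ⟨rfl, -⟩ := h3
        obtain ⟨rfl, -⟩ := h4
        rw [Fin.ext h]
    · have e1 : (univ.filter fun p : (Σ u : {u // H.Adj v u}, Fin (n v * n u)) =>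
          ((p.1 : V), β p.1 p.2) = (u, j)) = ∅ := by
        rw [filter_eq_empty_iff]
        rintro ⟨u', k⟩ _ h
        rw [Prod.mk.injEq] at h
        exact hu (h.1 ▸ u'.2)
      rw [e1]
      simp
  obtain ⟨i, hi1, hi2⟩ := kon
    (fun p : (Σ u : {u // H.Adj v u}, Fin (n v * n u)) => lab v p.1 p.2)
    (fun p => ((p.1 : V), β p.1 p.2)) (n v) ha hb
  refine ⟨fun u k => if h : H.Adj v u ∧ k < n v * n u then (i ⟨⟨u, h.1⟩, ⟨k, h.2⟩⟩ : ℕ) else 0,
    ?_, ?_, ?_⟩
  · intro u hu k hk
    simp only [hu, hk, and_self, dif_pos]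
    exact (i _).2
  · intro u u' k k' hu hu' hk hk' hl hii
    simp only [hu, hu', hk, hk', and_self, dif_pos] at hii
    by_contra hcon
    refine hi1 ⟨⟨u, hu⟩, ⟨k, hk⟩⟩ ⟨⟨u', hu'⟩, ⟨k', hk'⟩⟩ ?_ hl (Fin.ext hii)
    intro h
    apply hcon
    have h3 : u = u' := congrArg (fun p : (Σ u : {u // H.Adj v u}, Fin (n v * n u)) => (p.1 : V)) h
    have h4 : k = k' := congrArg (fun p : (Σ u : {u // H.Adj v u}, Fin (n v * n u)) => (p.2 : ℕ)) h
    exact ⟨h3, h4⟩
  · intro u k k' hu hk hk' hbb hii
    simp only [hu, hk, hk', and_self, dif_pos] at hii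
    by_contra hcon
    refine hi2 ⟨⟨u, hu⟩, ⟨k, hk⟩⟩ ⟨⟨u, hu⟩, ⟨k', hk'⟩⟩ ?_ ?_ (Fin.ext hii)
    · intro h
      have h4 : k = k' :=
        congrArg (fun p : (Σ u : {u // H.Adj v u}, Fin (n v * n u)) => (p.2 : ℕ)) h
      exact hcon h4
    · simp only
      rw [hbb]

/-- the recursion over the vertices -/
theorem recur (kon : SKon) {V : Type} [Fintype V] [DecidableEq V] (H : SimpleGraph V)
    (n : V → ℕ) (N : ℕ) (w : ℕ → V → V → ℕ)
    (h2 : ∀ l u, l < N → ∑ v, w l u v ≤ n u)
    (lab : V → V → ℕ → ℕ)
    (hlab1 : ∀ u v, H.Adj u v → ∀ k < n u * n v, lab u v k < N)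
    (hlab2 : ∀ u v, H.Adj u v → ∀ l < N,
      ((range (n u * n v)).filter fun k => lab u v k = l).card = w l u v)
    (e : V ≃ Fin (Fintype.card V)) (t : ℕ) :
    ∃ idx : V → V → ℕ → ℕ,
      (∀ v, (e v : ℕ) < t → ∀ u, H.Adj v u → ∀ k < n v * n u, idx v u k < n v) ∧
      (∀ v, (e v : ℕ) < t → ∀ u u' k k', H.Adj v u → H.Adj v u' → k < n v * n u →
        k' < n v * n u' → lab v u k = lab v u' k' →
        idx v u k = idx v u' k' → u = u' ∧ k = k') ∧
      (∀ v, (e v : ℕ) < t → ∀ u, H.Adj v u → ∀ j,
        ((range (n v * n u)).filter fun k => idx v u k = j).card ≤ n u) ∧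
      ∀ u v, (e u : ℕ) < (e v : ℕ) → (e v : ℕ) < t → H.Adj u v → ∀ k k', k < n u * n v →
        k' < n u * n v → idx u v k = idx u v k' → idx v u k = idx v u k' → k = k' := by
  classical
  induction t with
  | zero =>
    exact ⟨fun _ _ _ => 0, fun v hv => absurd hv (Nat.not_lt_zero _),
      fun v hv => absurd hv (Nat.not_lt_zero _),
      fun v hv => absurd hv (Nat.not_lt_zero _), fun u v _ hv => absurd hv (Nat.not_lt_zero _)⟩
  | succ t ih =>
    obtain ⟨idx, i0, i1, i2, i3⟩ := ih
    rcases Nat.lt_or_ge t (Fintype.card V) with hn | hn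
    · obtain ⟨v, hv⟩ : ∃ v, (e v : ℕ) = t := ⟨e.symm ⟨t, hn⟩, by simp⟩
      have hβlt : ∀ u, H.Adj v u → ∀ k < n v * n u,
          (if (e u : ℕ) < t then idx u v k else k / n v) < n u := by
        intro u hu k hk
        by_cases hun : (e u : ℕ) < t
        · rw [if_pos hun]
          rw [mul_comm] at hk
          exact i0 u hun v hu.symm k hk
        · rw [if_neg hun]
          exact Nat.div_lt_of_lt_mul hk
      obtain ⟨i, hi0, hi1, hi2⟩ := step kon H n N w h2 lab hlab1 hlab2 v
        (fun u k => if (e u : ℕ) < t then idx u v k else k / n v) (by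
          intro u hu j
          by_cases hun : (e u : ℕ) < t
          · simp only [hun, if_true]
            rw [mul_comm]
            exact i2 u hun v hu.symm j
          · simp only [hun, if_false]
            exact div_fibre _ _ j)
      have hne : ∀ u, (e u : ℕ) < t → u ≠ v := by
        rintro u hu rfl
        omega
      have heq : ∀ u, (e u : ℕ) < t + 1 → (e u : ℕ) < t ∨ u = v := by
        intro u hu
        rcases Nat.lt_or_ge (e u : ℕ) t with h | h
        · exact Or.inl h
        · right
          apply e.injective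
          apply Fin.ext
          omega
      refine ⟨fun u => if u = v then i else idx u, ?_, ?_, ?_, ?_⟩
      · intro u hu
        rcases heq u hu with h | h
        · simp only [hne u h, if_false]
          exact i0 u h
        · subst h
          simp only [if_true]
          exact hi0
      · intro u hu
        rcases heq u hu with h | h
        · simp only [hne u h, if_false]
          exact i1 u h
        · subst h
          simp only [if_true]
          exact hi1
      · intro u hu
        rcases heq u hu with h | h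
        · simp only [hne u h, if_false]
          exact i2 u h
        · subst h
          simp only [if_true]
          intro u' hu' j
          have h3 : ((range (n u * n u')).filter fun k => i u' k = j).card ≤
              (range (n u')).card := by
            refine card_le_card_of_injOn
              (fun k => if (e u' : ℕ) < t then idx u' u k else k / n u) ?_ ?_
            · intro k hk
              have a1 := (mem_filter.1 hk).1
              rw [mem_range] at a1
              simp only [coe_range, Set.mem_Iio]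
              exact hβlt u' hu' k a1
            · intro k hk k' hk' hkk
              have a1 := (mem_filter.1 hk)
              have a2 := (mem_filter.1 hk')
              rw [mem_range] at a1 a2
              exact hi2 u' k k' hu' a1.1 a2.1 hkk (a1.2.trans a2.2.symm)
          rwa [card_range] at h3
      · intro u v' huv hv' hadj k k' hk hk' a1 a2
        rcases heq v' hv' with h | h
        · have hu : (e u : ℕ) < t := by omega
          simp only [hne u hu, hne v' h, if_false] at a1 a2
          exact i3 u v' huv h hadj k k' hk hk' a1 a2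
        · subst h
          have hu : (e u : ℕ) < t := by omega
          simp only [hne u hu, if_false, if_true] at a1 a2
          rw [mul_comm] at hk hk'
          refine hi2 u k k' hadj.symm hk hk' ?_ a2
          simp only [hu, if_true]
          exact a1
    · have hlt : ∀ v, (e v : ℕ) < t := fun v => lt_of_lt_of_le (e v).2 hn
      exact ⟨idx, fun v _ => i0 v (hlt v), fun v _ => i1 v (hlt v), fun v _ => i2 v (hlt v),
        fun u v huv _ => i3 u v huv (hlt v)⟩

/-- Splitting: an edge coloured amalgamation comes from a proper edge colouring of the blow-up with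
part sizes `n v`. -/
theorem split2 {V : Type} [Fintype V] [DecidableEq V] (H : SimpleGraph V) (n : V → ℕ) (N : ℕ)
    (w : ℕ → V → V → ℕ) (hs : ∀ l u v, w l u v = w l v u)
    (h0 : ∀ l u v, ¬ H.Adj u v → w l u v = 0)
    (h1 : ∀ u v, H.Adj u v → ∑ l ∈ range N, w l u v = n u * n v)
    (h2 : ∀ l u, l < N → ∑ v, w l u v ≤ n u) :
    ∃ g : V × ℕ → V × ℕ → ℕ,
      (∀ x y, x.2 < n x.1 → y.2 < n y.1 → H.Adj x.1 y.1 →
        g x y = g y x ∧ g x y < N ∧ 0 < w (g x y) x.1 y.1) ∧
      ∀ x y z, x.2 < n x.1 → y.2 < n y.1 → z.2 < n z.1 → H.Adj x.1 y.1 → H.Adj x.1 z.1 →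
        y ≠ z → g x y ≠ g x z := by
  classical
  have kon : SKon := fun a b m ha hb => Pool.Agent.N645.TBKON.kon a b m ha hb
  obtain ⟨lab, hlab0, hlab1, hlab2⟩ := labels_sym H n N w hs h1
  obtain ⟨e⟩ : Nonempty (V ≃ Fin (Fintype.card V)) := ⟨Fintype.equivFin V⟩
  obtain ⟨idx, i0, i1, -, i3⟩ := recur kon H n N w h2 lab hlab1 hlab2 e (Fintype.card V)
  have hlt : ∀ v, (e v : ℕ) < Fintype.card V := fun v => (e v).2
  -- injectivity
  have hinj : ∀ u v, H.Adj u v → ∀ k k', k < n u * n v → k' < n u * n v →
      idx u v k = idx u v k' → idx v u k = idx v u k' → k = k' := by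
    intro u v huv k k' hk hk' a1 a2
    rcases lt_trichotomy (e u : ℕ) (e v : ℕ) with h | h | h
    · exact i3 u v h (hlt v) huv k k' hk hk' a1 a2
    · exact absurd (e.injective (Fin.ext h)) huv.ne
    · rw [mul_comm] at hk hk'
      exact i3 v u h (hlt u) huv.symm k k' hk hk' a2 a1
  -- surjectivity
  have hsur : ∀ u v i j, ∃ k, H.Adj u v → i < n u → j < n v →
      k < n u * n v ∧ idx u v k = i ∧ idx v u k = j := by
    intro u v i j
    by_cases h : H.Adj u v ∧ i < n u ∧ j < n v
    · obtain ⟨huv, hi, hj⟩ := h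
      have hmem : ∀ k ∈ range (n u * n v), (idx u v k, idx v u k) ∈ range (n u) ×ˢ range (n v) := by
        intro k hk
        rw [mem_range] at hk
        rw [mem_product, mem_range, mem_range]
        refine ⟨i0 u (hlt u) v huv k hk, i0 v (hlt v) u huv.symm k ?_⟩
        rwa [mul_comm]
      have himg : (range (n u * n v)).image (fun k => (idx u v k, idx v u k)) =
          range (n u) ×ˢ range (n v) := by
        refine eq_of_subset_of_card_le (image_subset_iff.2 hmem) ?_
        rw [card_image_of_injOn, card_product, card_range, card_range, card_range]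
        intro k hk k' hk' hkk
        rw [coe_range, Set.mem_Iio] at hk hk'
        simp only [Prod.mk.injEq] at hkk
        exact hinj u v huv k k' hk hk' hkk.1 hkk.2
      have h3 : (i, j) ∈ (range (n u * n v)).image (fun k => (idx u v k, idx v u k)) := by
        rw [himg, mem_product, mem_range, mem_range]
        exact ⟨hi, hj⟩
      obtain ⟨k, hk, hk2⟩ := mem_image.1 h3
      rw [Prod.mk.injEq] at hk2
      exact ⟨k, fun _ _ _ => ⟨mem_range.1 hk, hk2⟩⟩
    · exact ⟨0, fun a b c => absurd ⟨a, b, c⟩ h⟩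
  choose K hK using hsur
  refine ⟨fun x y => lab x.1 y.1 (K x.1 y.1 x.2 y.2), ?_, ?_⟩
  · intro x y hx hy h
    obtain ⟨a1, a2, a3⟩ := hK x.1 y.1 x.2 y.2 h hx hy
    obtain ⟨b1, b2, b3⟩ := hK y.1 x.1 y.2 x.2 h.symm hy hx
    refine ⟨?_, hlab1 _ _ h _ a1, ?_⟩
    · simp only
      rw [hlab0 x.1 y.1]
      congr 1
      refine hinj x.1 y.1 h _ _ a1 (by rwa [mul_comm]) ?_ ?_
      · rw [a2, b3]
      · rw [a3, b2]
    · simp only
      rw [← hlab2 x.1 y.1 h _ (hlab1 _ _ h _ a1), card_pos]
      exact ⟨K x.1 y.1 x.2 y.2, mem_filter.2 ⟨mem_range.2 a1, rfl⟩⟩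
  · intro x y z hx hy hz hxy hxz hyz hg
    simp only at hg
    obtain ⟨a1, a2, a3⟩ := hK x.1 y.1 x.2 y.2 hxy hx hy
    obtain ⟨b1, b2, b3⟩ := hK x.1 z.1 x.2 z.2 hxz hx hz
    obtain ⟨c1, c2⟩ := i1 x.1 (hlt _) y.1 z.1 _ _ hxy hxz a1 b1 hg (by rw [a2, b2])
    apply hyz
    refine Prod.ext c1 ?_
    rw [← a3, ← b3, c2, c1]

end Pool.Agent.N7.TCSPLIT2
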