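import Pool.Agent.N275.QD.Ana

set_option autoImplicit false

/-!
# Project QD: injectivity of the leading term, abstract version
-/

namespace Pool.Agent.N7.QDUQ

open Filter Topology Set
open Pool.Agent.N275.QD (mm Df)
open scoped Real

/-- the exponential gap beats every power -/
theorem gap {A B C ε : ℝ} (k : ℕ) (hAB : B < A) (hε : 0 < ε) :
    ∃ t₀ : ℝ, 0 < t₀ ∧ ∀ t : ℝ, 0 < t → t < t₀ →
      C * Real.exp (-(A / t)) ≤ ε * t * (t ^ k * Real.exp (-(B / t))) := by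
  have h1 : Tendsto (fun x : ℝ => x ^ (k + 1) * Real.exp (-(A - B) * x)) atTop (𝓝 0) := by
    have := Real.tendsto_pow_mul_exp_neg_atTop_nhds_zero (k + 1)
    have h2 : Tendsto (fun x : ℝ => (A - B) * x) atTop atTop :=
      tendsto_id.const_mul_atTop (by linarith)
    have h3 := (this.comp h2).const_mul (((A - B) ^ (k + 1))⁻¹)
    rw [mul_zero] at h3
    refine h3.congr fun x => ?_
    have : (A - B) ^ (k + 1) ≠ 0 := pow_ne_zero _ (by linarith)
    simp only [Function.comp]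
    rw [mul_pow, ← mul_assoc, ← mul_assoc, inv_mul_cancel₀ this, one_mul]
    ring_nf
  have h4 := h1.const_mul (|C| / ε)
  rw [mul_zero] at h4
  have h5 := (tendsto_order.1 h4).2 1 one_pos
  obtain ⟨x₀, hx₀⟩ := eventually_atTop.1 h5
  refine ⟨1 / (max x₀ 1), by positivity, fun t ht0 ht1 => ?_⟩
  have hx : x₀ ≤ 1 / t := by
    have h6 : max x₀ 1 ≤ 1 / t := by
      rw [le_div_iff₀ ht0]
      rw [lt_div_iff₀ (by positivity)] at ht1
      linarith
    exact (le_max_left _ _).trans h6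
  have h7 := hx₀ _ hx
  have h8 : |C| / ε * ((1 / t) ^ (k + 1) * Real.exp (-(A - B) * (1 / t))) < 1 := h7
  have h9 : Real.exp (-(A / t)) = Real.exp (-(A - B) * (1 / t)) * Real.exp (-(B / t)) := by
    rw [← Real.exp_add]; congr 1; ring
  rw [h9]
  have hE : 0 < Real.exp (-(B / t)) := Real.exp_pos _
  have h10 : |C| * Real.exp (-(A - B) * (1 / t)) ≤ ε * t ^ (k + 1) := by
    have e : |C| * Real.exp (-(A - B) * (1 / t)) =
        (|C| / ε * ((1 / t) ^ (k + 1) * Real.exp (-(A - B) * (1 / t)))) * (ε * t ^ (k + 1)) := by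
      have e0 : (1 / t) ^ (k + 1) * t ^ (k + 1) = 1 := by
        rw [← mul_pow, one_div, inv_mul_cancel₀ ht0.ne', one_pow]
      calc |C| * Real.exp (-(A - B) * (1 / t))
          = |C| * Real.exp (-(A - B) * (1 / t)) * ((1 / t) ^ (k + 1) * t ^ (k + 1)) * (ε / ε) := by
            rw [e0, div_self hε.ne']; ring
        _ = _ := by ring
    rw [e]
    have : 0 < ε * t ^ (k + 1) := by positivity
    nlinarith
  calc C * (Real.exp (-(A - B) * (1 / t)) * Real.exp (-(B / t)))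
      ≤ |C| * (Real.exp (-(A - B) * (1 / t)) * Real.exp (-(B / t))) :=
        mul_le_mul_of_nonneg_right (le_abs_self _) (by positivity)
    _ = (|C| * Real.exp (-(A - B) * (1 / t))) * Real.exp (-(B / t)) := by ring
    _ ≤ (ε * t ^ (k + 1)) * Real.exp (-(B / t)) := by
        exact mul_le_mul_of_nonneg_right h10 hE.le
    _ = ε * t * (t ^ k * Real.exp (-(B / t))) := by ring

/-- first and second order comparison -/
theorem ord1 {R K : ℝ} (h : ∀ ε : ℝ, 0 < ε → ε ≤ 1 → ∃ t₀ : ℝ, 0 < t₀ ∧ ∀ t : ℝ, 0 < t → t < t₀ →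
    |R| ≤ K * ε) (hK : 0 ≤ K) : R = 0 := by
  by_contra hR
  have hR' : 0 < |R| := abs_pos.2 hR
  obtain ⟨t₀, h0, h1⟩ := h (min 1 (|R| / (2 * (K + 1)))) (by positivity) (min_le_left _ _)
  have h2 := h1 (t₀ / 2) (by linarith) (by linarith)
  have h3 : K * min 1 (|R| / (2 * (K + 1))) ≤ K * (|R| / (2 * (K + 1))) :=
    mul_le_mul_of_nonneg_left (min_le_right _ _) hK
  have h4 : K * (|R| / (2 * (K + 1))) < |R| := by
    rw [← mul_div_assoc, div_lt_iff₀ (by positivity)]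
    nlinarith
  linarith

theorem ord2 {R D E K : ℝ} (hK : 0 ≤ K)
    (h : ∀ ε : ℝ, 0 < ε → ε ≤ 1 → ∃ t₀ : ℝ, 0 < t₀ ∧ ∀ t : ℝ, 0 < t → t < t₀ →
    |R + t * D + t ^ 2 * E| ≤ K * ε * t) : R = 0 ∧ D = 0 := by
  have hR : R = 0 := by
    by_contra hR
    have hR' : 0 < |R| := abs_pos.2 hR
    obtain ⟨t₀, h0, h1⟩ := h 1 one_pos le_rfl
    -- choose t small
    set t := min (t₀ / 2) (min 1 (|R| / (2 * (K + |D| + |E| + 1)))) with ht
    have htp : 0 < t := by positivity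
    have ht1 : t < t₀ := lt_of_le_of_lt (min_le_left _ _) (by linarith)
    have ht2 : t ≤ 1 := (min_le_right _ _).trans (min_le_left _ _)
    have ht3 : t ≤ |R| / (2 * (K + |D| + |E| + 1)) := (min_le_right _ _).trans (min_le_right _ _)
    have h2 := h1 t htp ht1
    have h3 : |R| ≤ |R + t * D + t ^ 2 * E| + t * |D| + t ^ 2 * |E| := by
      have e : R = (R + t * D + t ^ 2 * E) - t * D - t ^ 2 * E := by ring
      calc |R| = |(R + t * D + t ^ 2 * E) - t * D - t ^ 2 * E| := by rw [← e]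
        _ ≤ |(R + t * D + t ^ 2 * E) - t * D| + |t ^ 2 * E| := abs_sub _ _
        _ ≤ |R + t * D + t ^ 2 * E| + |t * D| + |t ^ 2 * E| := by
            gcongr; exact abs_sub _ _
        _ = _ := by rw [abs_mul, abs_mul, abs_of_pos htp, abs_of_pos (pow_pos htp 2)]
    have h4 : t ^ 2 * |E| ≤ t * |E| := by
      have : t ^ 2 ≤ t := by nlinarith
      exact mul_le_mul_of_nonneg_right this (abs_nonneg _)
    have h5 : t * (K + |D| + |E| + 1) ≤ |R| / 2 := by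
      rw [le_div_iff₀ (by positivity)] at ht3
      linarith
    nlinarith
  refine ⟨hR, ?_⟩
  subst hR
  by_contra hD
  have hD' : 0 < |D| := abs_pos.2 hD
  obtain ⟨t₀, h0, h1⟩ := h (min 1 (|D| / (2 * (K + 1)))) (by positivity) (min_le_left _ _)
  set t := min (t₀ / 2) (|D| / (4 * (|E| + 1))) with ht
  have htp : 0 < t := by positivity
  have ht1 : t < t₀ := lt_of_le_of_lt (min_le_left _ _) (by linarith)
  have ht3 : t ≤ |D| / (4 * (|E| + 1)) := min_le_right _ _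
  have h2 := h1 t htp ht1
  have h3 : |D| * t ≤ |0 + t * D + t ^ 2 * E| + t ^ 2 * |E| := by
    have e : t * D = (0 + t * D + t ^ 2 * E) - t ^ 2 * E := by ring
    calc |D| * t = |t * D| := by rw [abs_mul, abs_of_pos htp]; ring
      _ = |(0 + t * D + t ^ 2 * E) - t ^ 2 * E| := by rw [← e]
      _ ≤ |0 + t * D + t ^ 2 * E| + |t ^ 2 * E| := abs_sub _ _
      _ = _ := by rw [abs_mul, abs_of_pos (pow_pos htp 2)]
  have h4 : K * min 1 (|D| / (2 * (K + 1))) ≤ |D| / 2 := by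
    have h41 : K * min 1 (|D| / (2 * (K + 1))) ≤ K * (|D| / (2 * (K + 1))) :=
      mul_le_mul_of_nonneg_left (min_le_right _ _) hK
    have h42 : K * (|D| / (2 * (K + 1))) ≤ |D| / 2 := by
      rw [← mul_div_assoc, div_le_iff₀ (by positivity)]
      nlinarith
    linarith
  have h5 : t * (|E| + 1) ≤ |D| / 4 := by
    rw [le_div_iff₀ (by positivity)] at ht3
    linarith
  have h6 : |D| * t ≤ (|D| / 2) * t + t * (|D| / 4) := by
    have : K * min 1 (|D| / (2 * (K + 1))) * t ≤ (|D| / 2) * t :=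
      mul_le_mul_of_nonneg_right h4 htp.le
    have h7 : t ^ 2 * |E| ≤ t * (|D| / 4) := by
      have : t * |E| ≤ |D| / 4 := by nlinarith
      calc t ^ 2 * |E| = t * (t * |E|) := by ring
        _ ≤ t * (|D| / 4) := mul_le_mul_of_nonneg_left this htp.le
    linarith
  nlinarith

end Pool.Agent.N7.QDUQ

namespace Pool.Agent.N7.QDUQ

open Filter Topology Set
open Pool.Agent.N275.QD (mm Df S_MO S_IJ)
open scoped Real

/-- the distance of the two neighbouring sides -/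
noncomputable def dd' (β l : ℝ) : ℝ := if β ≤ π / 2 then l else l * Real.sin β

theorem dd'_pos {β l : ℝ} (h0 : 0 < β) (h1 : β < π) (hl : 0 < l) : 0 < dd' β l := by
  unfold dd'
  split_ifs
  · exact hl
  · exact mul_pos hl (Real.sin_pos_of_pos_of_lt_pi h0 h1)

/-- comparison -/
theorem cmp {N N' : ℝ → ℕ → ℝ} {d d' A C : ℝ} (hdd : d = d') {t₀ : ℝ} (ht₀ : 0 < t₀)
    (hLB : ∃ (k : ℕ) (t₀ : ℝ), 0 < t₀ ∧ ∀ t : ℝ, 0 < t → t < t₀ → ∀ᶠ M : ℕ in atTop,
      t ^ k * Real.exp (-(d ^ 2 / t)) ≤ N t M)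
    (hLB' : ∃ (k : ℕ) (t₀ : ℝ), 0 < t₀ ∧ ∀ t : ℝ, 0 < t → t < t₀ → ∀ᶠ M : ℕ in atTop,
      t ^ k * Real.exp (-(d' ^ 2 / t)) ≤ N' t M)
    (hA : d ^ 2 < A)
    (h : ∀ t : ℝ, 0 < t → t < t₀ → ∃ᶠ M : ℕ in atTop, |N t M - N' t M| ≤ C * Real.exp (-(A / t)))
    (ε : ℝ) (hε : 0 < ε) : ∃ t₀ : ℝ, 0 < t₀ ∧ ∀ t : ℝ, 0 < t → t < t₀ → ∃ᶠ M : ℕ in atTop,
      0 < N t M ∧ 0 < N' t M ∧ |N t M - N' t M| ≤ ε * t * N t M ∧
      |N t M - N' t M| ≤ ε * t * N' t M := by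
  subst hdd
  obtain ⟨k, t₁, h1, hk⟩ := hLB
  obtain ⟨k', t₂, h2, hk'⟩ := hLB'
  obtain ⟨t₃, h3, hg⟩ := gap (C := C) k hA hε
  obtain ⟨t₄, h4, hg'⟩ := gap (C := C) k' hA hε
  refine ⟨min t₀ (min (min t₁ t₂) (min t₃ t₄)), by positivity, fun t ht0 ht1 => ?_⟩
  simp only [lt_min_iff] at ht1
  obtain ⟨ha, ⟨hb, hc⟩, hd, he⟩ := ht1
  refine ((h t ht0 ha).and_eventually ((hk t ht0 hb).and (hk' t ht0 hc))).mono ?_
  rintro M ⟨ha', hb', hc'⟩
  have e1 : 0 < t ^ k * Real.exp (-(d ^ 2 / t)) := by positivity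
  have e2 : 0 < t ^ k' * Real.exp (-(d ^ 2 / t)) := by positivity
  refine ⟨e1.trans_le hb', e2.trans_le hc', ?_, ?_⟩
  · exact (ha'.trans (hg t ht0 hd)).trans (mul_le_mul_of_nonneg_left hb' (by positivity))
  · exact (ha'.trans (hg' t ht0 he)).trans (mul_le_mul_of_nonneg_left hc' (by positivity))

/-- algebra of case 1 -/
theorem alg1 {x y z R₁ R₂ D₁ D₂ ε t : ℝ} (hz : 0 < z) (hε : 0 < ε) (hε1 : ε ≤ 1)
    (ht : 0 < t) (ht1 : t ≤ 1) (hR₁ : 0 ≤ R₁) (hR₂ : 0 ≤ R₂)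
    (h1 : |x - R₁ * (1 - t * D₁) * y| ≤ ε * t * y) (h2 : |y - R₂ * (1 - t * D₂) * z| ≤ ε * t * z)
    (h3 : |x - z| ≤ ε * t * z) :
    |(1 - R₁ * R₂) + t * (R₁ * R₂ * (D₁ + D₂)) + t ^ 2 * (-(R₁ * R₂ * D₁ * D₂))| ≤
      (1 + (R₂ * (1 + |D₂|) + 1) + R₁ * (1 + |D₁|)) * ε * t := by
  have hy : 0 ≤ y := by
    have := (abs_nonneg _).trans h1
    by_contra hc
    push Not at hc
    nlinarith [mul_pos hε ht]
  have b1 : |1 - t * D₁| ≤ 1 + |D₁| := by
    calc |1 - t * D₁| ≤ |(1 : ℝ)| + |t * D₁| := abs_sub _ _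
      _ = 1 + t * |D₁| := by rw [abs_one, abs_mul, abs_of_pos ht]
      _ ≤ 1 + 1 * |D₁| := by gcongr
      _ = _ := by ring
  have b2 : |1 - t * D₂| ≤ 1 + |D₂| := by
    calc |1 - t * D₂| ≤ |(1 : ℝ)| + |t * D₂| := abs_sub _ _
      _ = 1 + t * |D₂| := by rw [abs_one, abs_mul, abs_of_pos ht]
      _ ≤ 1 + 1 * |D₂| := by gcongr
      _ = _ := by ring
  have hyz : y ≤ (R₂ * (1 + |D₂|) + 1) * z := by
    have : y ≤ |y - R₂ * (1 - t * D₂) * z| + |R₂ * (1 - t * D₂) * z| := by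
      calc y = (y - R₂ * (1 - t * D₂) * z) + R₂ * (1 - t * D₂) * z := by ring
        _ ≤ _ := add_le_add (le_abs_self _) (le_abs_self _)
    rw [abs_mul, abs_mul, abs_of_nonneg hR₂, abs_of_pos hz] at this
    have h4 : ε * t * z ≤ 1 * z := by
      apply mul_le_mul_of_nonneg_right _ hz.le
      nlinarith
    have h5 : R₂ * |1 - t * D₂| * z ≤ R₂ * (1 + |D₂|) * z := by gcongr
    linarith
  have key : |(1 - R₁ * R₂) + t * (R₁ * R₂ * (D₁ + D₂)) + t ^ 2 * (-(R₁ * R₂ * D₁ * D₂))| * z ≤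
      (1 + (R₂ * (1 + |D₂|) + 1) + R₁ * (1 + |D₁|)) * ε * t * z := by
    rw [← abs_of_pos hz, ← abs_mul, abs_of_pos hz]
    have e : ((1 - R₁ * R₂) + t * (R₁ * R₂ * (D₁ + D₂)) + t ^ 2 * (-(R₁ * R₂ * D₁ * D₂))) * z =
        -(x - z) + (x - R₁ * (1 - t * D₁) * y) +
          (R₁ * (1 - t * D₁)) * (y - R₂ * (1 - t * D₂) * z) := by ring
    rw [e]
    calc _ ≤ |-(x - z)| + |x - R₁ * (1 - t * D₁) * y| +
          |(R₁ * (1 - t * D₁)) * (y - R₂ * (1 - t * D₂) * z)| := abs_add_three _ _ _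
      _ ≤ ε * t * z + ε * t * y + (R₁ * (1 + |D₁|)) * (ε * t * z) := by
          rw [abs_neg, abs_mul, abs_mul, abs_of_nonneg hR₁]
          gcongr
      _ ≤ ε * t * z + ε * t * ((R₂ * (1 + |D₂|) + 1) * z) + (R₁ * (1 + |D₁|)) * (ε * t * z) := by
          gcongr
      _ = _ := by ring
  exact le_of_mul_le_mul_right key hz

section
variable {N : ℝ → ℝ → ℝ → ℝ → ℕ → ℝ}

/-- a lower bound -/
def LB (N : ℝ → ℝ → ℝ → ℝ → ℕ → ℝ) : Prop := ∀ α β l : ℝ, 0 < α → α < π / 2 → 0 < β →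
  α + β < π → 0 < l → ∃ (k : ℕ) (t₀ : ℝ), 0 < t₀ ∧ ∀ t : ℝ, 0 < t → t < t₀ → ∀ᶠ M : ℕ in atTop,
    t ^ k * Real.exp (-(dd' β l ^ 2 / t)) ≤ N α β l t M

def T1 (N : ℝ → ℝ → ℝ → ℝ → ℕ → ℝ) : Prop := ∀ α α' β l ε : ℝ, 0 < α → α < π / 2 → 0 < α' →
  α' < π / 2 → 0 < β → β < π / 2 →
  0 < l → 0 < ε → ∃ t₀ : ℝ, 0 < t₀ ∧ ∀ t : ℝ, 0 < t → t < t₀ → ∀ᶠ M : ℕ in atTop,
    |N α β l t M - mm 2 α / mm 2 α' *
        (1 - t / l ^ 2 * (mm 4 α / mm 2 α - mm 4 α' / mm 2 α')) * N α' β l t M| ≤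
      ε * t * N α' β l t M

def T0 (N : ℝ → ℝ → ℝ → ℝ → ℕ → ℝ) : Prop := ∀ α α' l ε : ℝ, 0 < α → α < π / 2 → 0 < α' →
  α' < π / 2 →
  0 < l → 0 < ε → ∃ t₀ : ℝ, 0 < t₀ ∧ ∀ t : ℝ, 0 < t → t < t₀ → ∀ᶠ M : ℕ in atTop,
    |N α (π / 2) l t M - mm 2 α / mm 2 α' * N α' (π / 2) l t M| ≤ ε * N α' (π / 2) l t M

def T3 (N : ℝ → ℝ → ℝ → ℝ → ℕ → ℝ) : Prop := ∀ α φ α' φ' d ε : ℝ, 0 < α → 0 < φ →
  φ + α < π / 2 → 0 < α' → 0 < φ' →
  φ' + α' < π / 2 → 0 < d → 0 < ε → ∃ t₀ : ℝ, 0 < t₀ ∧ ∀ t : ℝ, 0 < t → t < t₀ →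
    ∀ᶠ M : ℕ in atTop,
    |N α (π / 2 + φ) (d / Real.cos φ) t M * (Df α' φ' + t / (2 * d ^ 2) * mm 2 α') -
      N α' (π / 2 + φ') (d / Real.cos φ') t M * (Df α φ + t / (2 * d ^ 2) * mm 2 α)| ≤
      ε * t * N α (π / 2 + φ) (d / Real.cos φ) t M

def T2 (N : ℝ → ℝ → ℝ → ℝ → ℕ → ℝ) : Prop := ∀ α α' φ' d ε : ℝ, 0 < α → α < π / 2 → 0 < α' →
  0 < φ' →
  φ' + α' < π / 2 → 0 < d → 0 < ε → ∃ t₀ : ℝ, 0 < t₀ ∧ ∀ t : ℝ, 0 < t → t < t₀ →
    ∀ᶠ M : ℕ in atTop,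
    N α (π / 2) d t M ≤ ε * N α' (π / 2 + φ') (d / Real.cos φ') t M

/-- monotonicity -/
def MON (N : ℝ → ℝ → ℝ → ℝ → ℕ → ℝ) : Prop := ∀ α β l : ℝ, 0 < α → α < π / 2 → 0 < β →
  β < π / 2 → 0 < l → ∃ t₀ : ℝ, 0 < t₀ ∧ ∀ t : ℝ, 0 < t → t < t₀ → ∀ᶠ M : ℕ in atTop,
    N α β l t M ≤ N α (π / 2) l t M

def SYM (N : ℝ → ℝ → ℝ → ℝ → ℕ → ℝ) : Prop := ∀ (α β l t : ℝ) (M : ℕ), 0 < t → 0 < M →
  N α β l t M = N β α l t M

/-- case 1 -/
theorem case1 (hSY : SYM N) (hLB : LB N) (h1 : T1 N) (hMO : S_MO) (hIJ : S_IJ)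
    {α β l α' β' A C t₀ : ℝ} (ha : 0 < α) (hab : α ≤ β) (hb : β < π / 2) (hl : 0 < l)
    (ha' : 0 < α') (hab' : α' ≤ β') (hb' : β' < π / 2) (hA : l ^ 2 < A) (ht₀ : 0 < t₀)
    (h : ∀ t : ℝ, 0 < t → t < t₀ → ∃ᶠ M : ℕ in atTop,
      |N α β l t M - N α' β' l t M| ≤ C * Real.exp (-(A / t))) : α = α' ∧ β = β' := by
  have hd : dd' β l = l := by simp [dd', hb.le]
  have hd' : dd' β' l = l := by simp [dd', hb'.le]
  have hm : ∀ γ : ℝ, 0 < γ → γ < π / 2 → 0 < mm 2 γ := fun γ g0 g1 => (hMO.2.1 2 γ g0 g1).2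
  have m1 := hm α ha (by linarith)
  have m2 := hm β (by linarith) (by linarith)
  have m3 := hm α' ha' (by linarith)
  have m4 := hm β' (by linarith) (by linarith)
  have key := ord2 (R := 1 - mm 2 α / mm 2 α' * (mm 2 β / mm 2 β'))
    (D := mm 2 α / mm 2 α' * (mm 2 β / mm 2 β') *
      ((mm 4 α / mm 2 α - mm 4 α' / mm 2 α') / l ^ 2 + (mm 4 β / mm 2 β - mm 4 β' / mm 2 β') / l ^ 2))
    (E := -(mm 2 α / mm 2 α' * (mm 2 β / mm 2 β') * ((mm 4 α / mm 2 α - mm 4 α' / mm 2 α') / l ^ 2) *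
      ((mm 4 β / mm 2 β - mm 4 β' / mm 2 β') / l ^ 2)))
    (K := (1 + (mm 2 β / mm 2 β' * (1 + |(mm 4 β / mm 2 β - mm 4 β' / mm 2 β') / l ^ 2|) + 1) +
      mm 2 α / mm 2 α' * (1 + |(mm 4 α / mm 2 α - mm 4 α' / mm 2 α') / l ^ 2|))) (by positivity) ?_
  · obtain ⟨k1, k2⟩ := key
    have k3 : mm 2 α * mm 2 β = mm 2 α' * mm 2 β' := by
      have : mm 2 α / mm 2 α' * (mm 2 β / mm 2 β') = 1 := by linarith
      field_simp at this
      linarith
    have k4 : mm 4 α / mm 2 α + mm 4 β / mm 2 β = mm 4 α' / mm 2 α' + mm 4 β' / mm 2 β' := by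
      have k5 : mm 2 α / mm 2 α' * (mm 2 β / mm 2 β') ≠ 0 := by positivity
      have k6 := (mul_eq_zero.1 k2).resolve_left k5
      rw [← add_div, div_eq_zero_iff] at k6
      have k7 := k6.resolve_right (by positivity)
      linarith
    rcases hIJ α β α' β' ha (by linarith) (by linarith) hb ha' (by linarith) (by linarith) hb' k3 k4
      with h5 | ⟨h5, h6⟩
    · exact h5
    · constructor <;> linarith
  · intro ε hε hε1
    obtain ⟨t₁, q1, hq1⟩ := h1 α α' β l ε ha (by linarith) ha' (by linarith) (by linarith) hb hl hε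
    obtain ⟨t₂, q2, hq2⟩ := h1 β β' α' l ε (by linarith) hb (by linarith) hb' ha' (by linarith) hl hε
    obtain ⟨t₃, q3, hq3⟩ := cmp (N := N α β l) (N' := N α' β' l) (hd.trans hd'.symm) ht₀
      (hLB α β l ha (by linarith) (by linarith) (by linarith) hl)
      (hLB α' β' l ha' (by linarith) (by linarith) (by linarith) hl) (by rw [hd]; exact hA) h ε hε
    refine ⟨min (min t₁ t₂) (min t₃ 1), by positivity, fun t ht0 ht1 => ?_⟩
    simp only [lt_min_iff] at ht1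
    obtain ⟨⟨r1, r2⟩, r3, r4⟩ := ht1
    obtain ⟨M, ⟨⟨s1, s2, s3, s4⟩, s5, s6⟩, s7⟩ := (((hq3 t ht0 r3).and_eventually
      ((hq1 t ht0 r1).and (hq2 t ht0 r2))).and_eventually (eventually_gt_atTop 0)).exists
    rw [hSY β α' l t M ht0 s7, hSY β' α' l t M ht0 s7] at s6
    refine alg1 (y := N α' β l t M) s2 hε hε1 ht0 r4.le (by positivity) (by positivity) ?_ ?_ s4
    · have : t * ((mm 4 α / mm 2 α - mm 4 α' / mm 2 α') / l ^ 2) =
          t / l ^ 2 * (mm 4 α / mm 2 α - mm 4 α' / mm 2 α') := by ring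
      rw [this]; exact s5
    · have : t * ((mm 4 β / mm 2 β - mm 4 β' / mm 2 β') / l ^ 2) =
          t / l ^ 2 * (mm 4 β / mm 2 β - mm 4 β' / mm 2 β') := by ring
      rw [this]; exact s6

/-- case 2 -/
theorem case2 (hLB : LB N) (h0 : T0 N) (hMO : S_MO)
    {α l α' A C t₀ : ℝ} (ha : 0 < α) (hb : α < π / 2) (hl : 0 < l)
    (ha' : 0 < α') (hb' : α' < π / 2) (hA : l ^ 2 < A) (ht₀ : 0 < t₀)
    (h : ∀ t : ℝ, 0 < t → t < t₀ → ∃ᶠ M : ℕ in atTop,
      |N α (π / 2) l t M - N α' (π / 2) l t M| ≤ C * Real.exp (-(A / t))) : α = α' := by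
  have hd : dd' (π / 2) l = l := by simp [dd']
  have hp := Real.pi_pos
  have m1 := (hMO.2.1 2 α ha hb).2
  have m3 := (hMO.2.1 2 α' ha' hb').2
  have key := ord1 (R := 1 - mm 2 α / mm 2 α') (K := 2) ?_ (by norm_num)
  · have : mm 2 α = mm 2 α' := by
      have : mm 2 α / mm 2 α' = 1 := by linarith
      field_simp at this
      linarith
    exact hMO.2.2.1.injOn ⟨ha, hb⟩ ⟨ha', hb'⟩ this
  · intro ε hε hε1
    obtain ⟨t₁, q1, hq1⟩ := h0 α α' l ε ha hb ha' hb' hl hε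
    obtain ⟨t₃, q3, hq3⟩ := cmp (N := N α (π / 2) l) (N' := N α' (π / 2) l) rfl ht₀
      (hLB α (π / 2) l ha hb (by linarith) (by linarith) hl)
      (hLB α' (π / 2) l ha' hb' (by linarith) (by linarith) hl) (by rw [hd]; exact hA) h ε hε
    refine ⟨min t₁ (min t₃ 1), by positivity, fun t ht0 ht1 => ?_⟩
    simp only [lt_min_iff] at ht1
    obtain ⟨r1, r3, r4⟩ := ht1
    obtain ⟨M, ⟨s1, s2, s3, s4⟩, s5⟩ := ((hq3 t ht0 r3).and_eventually (hq1 t ht0 r1)).exists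
    generalize N α (π / 2) l t M = x at *
    generalize N α' (π / 2) l t M = z at *
    have e : |1 - mm 2 α / mm 2 α'| * z ≤ 2 * ε * z := by
      rw [← abs_of_pos s2, ← abs_mul, abs_of_pos s2]
      have : (1 - mm 2 α / mm 2 α') * z = -(x - z) + (x - mm 2 α / mm 2 α' * z) := by ring
      rw [this]
      refine (abs_add_le _ _).trans ?_
      rw [abs_neg]
      have : ε * t * z ≤ ε * z := by
        have : ε * t ≤ ε := by nlinarith
        exact mul_le_mul_of_nonneg_right this s2.le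
      linarith
    exact le_of_mul_le_mul_right e s2

/-- case 3 -/
theorem case3 (hLB : LB N) (h3 : T3 N) (hMO : S_MO)
    {α φ d α' φ' A C t₀ : ℝ} (ha : 0 < α) (hf : 0 < φ) (hb : φ + α < π / 2) (hl : 0 < d)
    (ha' : 0 < α') (hf' : 0 < φ') (hb' : φ' + α' < π / 2) (hA : d ^ 2 < A) (ht₀ : 0 < t₀)
    (h : ∀ t : ℝ, 0 < t → t < t₀ → ∃ᶠ M : ℕ in atTop,
      |N α (π / 2 + φ) (d / Real.cos φ) t M - N α' (π / 2 + φ') (d / Real.cos φ') t M| ≤
        C * Real.exp (-(A / t))) : α = α' ∧ φ = φ' := by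
  have hp := Real.pi_pos
  have hc : 0 < Real.cos φ := Real.cos_pos_of_mem_Ioo ⟨by linarith, by linarith⟩
  have hc' : 0 < Real.cos φ' := Real.cos_pos_of_mem_Ioo ⟨by linarith, by linarith⟩
  have hd : dd' (π / 2 + φ) (d / Real.cos φ) = d := by
    have : ¬ (π / 2 + φ ≤ π / 2) := by linarith
    rw [dd', if_neg this, add_comm, Real.sin_add_pi_div_two]
    field_simp
  have hd' : dd' (π / 2 + φ') (d / Real.cos φ') = d := by
    have : ¬ (π / 2 + φ' ≤ π / 2) := by linarith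
    rw [dd', if_neg this, add_comm, Real.sin_add_pi_div_two]
    field_simp
  have m1 := (hMO.2.1 2 α ha (by linarith)).2
  have m3 := (hMO.2.1 2 α' ha' (by linarith)).2
  have key := ord2 (R := Df α' φ' - Df α φ)
    (D := (mm 2 α' - mm 2 α) / (2 * d ^ 2))
    (E := 0)
    (K := 1 + (|Df α φ| + mm 2 α / (2 * d ^ 2))) (by positivity) ?_
  · obtain ⟨k1, k2⟩ := key
    have k3 : mm 2 α' - mm 2 α = 0 := by
      rw [div_eq_zero_iff] at k2
      exact k2.resolve_right (by positivity)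
    have k4 : α = α' := hMO.2.2.1.injOn ⟨ha, by linarith⟩ ⟨ha', by linarith⟩ (by linarith)
    subst k4
    refine ⟨rfl, ?_⟩
    exact (hMO.2.2.2.2 α ha).1.injOn ⟨hf.le, by linarith⟩ ⟨hf'.le, by linarith⟩ (by linarith)
  · intro ε hε hε1
    obtain ⟨t₁, q1, hq1⟩ := h3 α φ α' φ' d ε ha hf hb ha' hf' hb' hl hε
    obtain ⟨t₃, q3, hq3⟩ := cmp (N := N α (π / 2 + φ) (d / Real.cos φ))
      (N' := N α' (π / 2 + φ') (d / Real.cos φ')) (hd.trans hd'.symm) ht₀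
      (hLB α (π / 2 + φ) _ ha (by linarith) (by linarith) (by linarith) (by positivity))
      (hLB α' (π / 2 + φ') _ ha' (by linarith) (by linarith) (by linarith) (by positivity))
      (by rw [hd]; exact hA) h ε hε
    refine ⟨min t₁ (min t₃ 1), by positivity, fun t ht0 ht1 => ?_⟩
    simp only [lt_min_iff] at ht1
    obtain ⟨r1, r3, r4⟩ := ht1
    obtain ⟨M, ⟨s1, s2, s3, s4⟩, s5⟩ := ((hq3 t ht0 r3).and_eventually (hq1 t ht0 r1)).exists
    generalize N α (π / 2 + φ) (d / Real.cos φ) t M = x at *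
    generalize N α' (π / 2 + φ') (d / Real.cos φ') t M = z at *
    have e : |Df α' φ' - Df α φ + t * ((mm 2 α' - mm 2 α) / (2 * d ^ 2)) + t ^ 2 * 0| * x ≤
        (1 + (|Df α φ| + mm 2 α / (2 * d ^ 2))) * ε * t * x := by
      rw [← abs_of_pos s1, ← abs_mul, abs_of_pos s1]
      have : (Df α' φ' - Df α φ + t * ((mm 2 α' - mm 2 α) / (2 * d ^ 2)) + t ^ 2 * 0) * x =
          (x * (Df α' φ' + t / (2 * d ^ 2) * mm 2 α') - z * (Df α φ + t / (2 * d ^ 2) * mm 2 α)) -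
          (x - z) * (Df α φ + t / (2 * d ^ 2) * mm 2 α) := by ring
      rw [this]
      refine (abs_sub _ _).trans ?_
      rw [abs_mul (x - z)]
      have e1 : |Df α φ + t / (2 * d ^ 2) * mm 2 α| ≤ |Df α φ| + mm 2 α / (2 * d ^ 2) := by
        refine (abs_add_le _ _).trans ?_
        have : |t / (2 * d ^ 2) * mm 2 α| = t * (mm 2 α / (2 * d ^ 2)) := by
          rw [abs_of_pos (by positivity)]; ring
        rw [this]
        have : t * (mm 2 α / (2 * d ^ 2)) ≤ 1 * (mm 2 α / (2 * d ^ 2)) := by gcongr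
        linarith
      have e2 : |x - z| * |Df α φ + t / (2 * d ^ 2) * mm 2 α| ≤
          (ε * t * x) * (|Df α φ| + mm 2 α / (2 * d ^ 2)) := by gcongr
      calc _ ≤ ε * t * x + (ε * t * x) * (|Df α φ| + mm 2 α / (2 * d ^ 2)) := add_le_add s5 e2
        _ = _ := by ring
    exact le_of_mul_le_mul_right e s1

/-- type I against type II -/
theorem case12 (hSY : SYM N) (hLB : LB N) (h1 : T1 N) (h0 : T0 N) (hMON : MON N) (hMO : S_MO)
    {α β l α' A C t₀ : ℝ} (ha : 0 < α) (hab : α ≤ β) (hb : β < π / 2) (hl : 0 < l)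
    (ha' : 0 < α') (hb' : α' < π / 2) (hA : l ^ 2 < A) (ht₀ : 0 < t₀)
    (h : ∀ t : ℝ, 0 < t → t < t₀ → ∃ᶠ M : ℕ in atTop,
      |N α β l t M - N α' (π / 2) l t M| ≤ C * Real.exp (-(A / t))) : False := by
  have hd : dd' β l = l := by simp [dd', hb.le]
  have hd' : dd' (π / 2) l = l := by simp [dd']
  have hp := Real.pi_pos
  have m1 := (hMO.2.1 2 α ha (by linarith)).2
  have m2 := (hMO.2.1 2 β (by linarith) (by linarith)).2
  have m3 := (hMO.2.1 2 α' ha' hb').2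
  -- choice of the intermediate angle
  obtain ⟨β₁, c1, c2, c3⟩ : ∃ β₁, β < β₁ ∧ β₁ < π / 2 ∧
      8 * (mm 2 β * mm 2 α / mm 2 α') < mm 2 β₁ := by
    have e1 := hMO.2.2.2.1.eventually_gt_atTop (8 * (mm 2 β * mm 2 α / mm 2 α'))
    have e2 : ∀ᶠ x in 𝓝[<] (π / 2), β < x :=
      (eventually_gt_nhds hb).filter_mono nhdsWithin_le_nhds
    obtain ⟨x, hx1, hx2, hx3⟩ := (e1.and (e2.and self_mem_nhdsWithin)).exists
    exact ⟨x, hx2, hx3, hx1⟩
  have m4 := (hMO.2.1 2 β₁ (by linarith) c2).2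
  set u := mm 2 β / mm 2 β₁ with hu
  have hu0 : 0 < u := by positivity
  set v := mm 2 α / mm 2 α' with hv
  have hv0 : 0 < v := by positivity
  have huv : 8 * (u * v) < 1 := by
    have : 8 * (u * v) = 8 * (mm 2 β * mm 2 α / mm 2 α') / mm 2 β₁ := by
      rw [hu, hv]; field_simp
    rw [this, div_lt_one m4]
    exact c3
  obtain ⟨t₁, q1, hq1⟩ := h1 β β₁ α l u (by linarith) hb (by linarith) c2 ha (by linarith) hl hu0
  obtain ⟨t₂, q2, hq2⟩ := h0 α α' l v ha (by linarith) ha' hb' hl hv0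
  obtain ⟨t₄, q4, hq4⟩ := hMON α β₁ l ha (by linarith) (by linarith) c2 hl
  obtain ⟨k, t₅, q5, hq5⟩ := hLB α β₁ l ha (by linarith) (by linarith) (by linarith) hl
  obtain ⟨t₃, q3, hq3⟩ := cmp (N := N α β l) (N' := N α' (π / 2) l) (hd.trans hd'.symm) ht₀
    (hLB α β l ha (by linarith) (by linarith) (by linarith) hl)
    (hLB α' (π / 2) l ha' (by linarith) (by linarith) (by linarith) hl) (by rw [hd]; exact hA) h
    (1 / 2) (by norm_num)
  set D := (mm 4 β / mm 2 β - mm 4 β₁ / mm 2 β₁) with hD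
  -- a small time
  set t := min (min (t₁ / 2) (t₂ / 2)) (min (min (t₃ / 2) (t₄ / 2))
    (min (t₅ / 2) (min (1 / 2) (l ^ 2 / (|D| + 1))))) with ht
  have ht0 : 0 < t := by positivity
  have r1 : t < t₁ := lt_of_le_of_lt ((min_le_left _ _).trans (min_le_left _ _)) (by linarith)
  have r2 : t < t₂ := lt_of_le_of_lt ((min_le_left _ _).trans (min_le_right _ _)) (by linarith)
  have r3 : t < t₃ := lt_of_le_of_lt ((min_le_right _ _).trans ((min_le_left _ _).trans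
    (min_le_left _ _))) (by linarith)
  have r4 : t < t₄ := lt_of_le_of_lt ((min_le_right _ _).trans ((min_le_left _ _).trans
    (min_le_right _ _))) (by linarith)
  have r5 : t < t₅ := lt_of_le_of_lt ((min_le_right _ _).trans ((min_le_right _ _).trans
    (min_le_left _ _))) (by linarith)
  have r6 : t ≤ 1 / 2 := (min_le_right _ _).trans ((min_le_right _ _).trans
    ((min_le_right _ _).trans (min_le_left _ _)))
  have r7 : t ≤ l ^ 2 / (|D| + 1) := (min_le_right _ _).trans ((min_le_right _ _).trans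
    ((min_le_right _ _).trans (min_le_right _ _)))
  obtain ⟨M, ⟨⟨s1, s2, s3, s4⟩, s5, s6, s8, s9⟩, s7⟩ := (((hq3 t ht0 r3).and_eventually
    ((hq1 t ht0 r1).and ((hq2 t ht0 r2).and ((hq4 t ht0 r4).and (hq5 t ht0 r5))))).and_eventually
      (eventually_gt_atTop 0)).exists
  rw [hSY β α l t M ht0 s7, hSY β₁ α l t M ht0 s7] at s5
  have e5 : 0 < t ^ k * Real.exp (-(dd' β₁ l ^ 2 / t)) := by positivity
  have e6 := e5.trans_le s9
  generalize N α β l t M = x at *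
  generalize N α' (π / 2) l t M = z at *
  generalize N α (π / 2) l t M = w at *
  generalize N α β₁ l t M = y at *
  have f1 : |t / l ^ 2 * D| ≤ 1 := by
    rw [abs_mul, abs_of_pos (by positivity : 0 < t / l ^ 2), div_mul_eq_mul_div, div_le_one (by positivity)]
    rw [le_div_iff₀ (by positivity)] at r7
    nlinarith [abs_nonneg D]
  have f2 : x ≤ 3 * u * y := by
    have g1 := (abs_le.1 s5).2
    have g2 := (abs_le.1 f1).1
    have g3 : u * (1 - t / l ^ 2 * D) * y ≤ u * 2 * y := by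
      have : 1 - t / l ^ 2 * D ≤ 2 := by linarith
      gcongr
    have g4 : u * t * y ≤ u * 1 * y := by
      gcongr
      linarith
    linarith
  have f3 : w ≤ 2 * v * z := by
    have g1 := (abs_le.1 s6).2
    linarith
  have f4 : 3 / 4 * z ≤ x := by
    have g1 := (abs_le.1 s4).1
    have : 1 / 2 * t * z ≤ 1 / 4 * z := by
      have : 1 / 2 * t ≤ 1 / 4 := by linarith
      gcongr
    linarith
  have f5 : 3 * u * y ≤ 3 * u * (2 * v * z) := by
    have : y ≤ 2 * v * z := s8.trans f3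
    gcongr
  have f6 : 3 * u * (2 * v * z) = 6 * (u * v) * z := by ring
  have f7 : 6 * (u * v) * z < 3 / 4 * z := by
    have : 6 * (u * v) < 3 / 4 := by linarith
    exact mul_lt_mul_of_pos_right this s2
  linarith

/-- type II against type III -/
theorem case23 (hLB : LB N) (h2 : T2 N)
    {α l α' φ' d A C t₀ : ℝ} (ha : 0 < α) (hb : α < π / 2) (hl : 0 < l) (hld : l = d)
    (ha' : 0 < α') (hf' : 0 < φ') (hb' : φ' + α' < π / 2) (hA : l ^ 2 < A) (ht₀ : 0 < t₀)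
    {x : ℝ → ℕ → ℝ}
    (hx : ∃ t₀ : ℝ, 0 < t₀ ∧ ∀ t : ℝ, 0 < t → t < t₀ → ∀ᶠ M : ℕ in atTop, x t M ≤ N α (π / 2) l t M)
    (hx' : ∃ (k : ℕ) (t₀ : ℝ), 0 < t₀ ∧ ∀ t : ℝ, 0 < t → t < t₀ → ∀ᶠ M : ℕ in atTop,
      t ^ k * Real.exp (-(l ^ 2 / t)) ≤ x t M)
    (h : ∀ t : ℝ, 0 < t → t < t₀ → ∃ᶠ M : ℕ in atTop,
      |x t M - N α' (π / 2 + φ') (d / Real.cos φ') t M| ≤ C * Real.exp (-(A / t))) : False := by
  subst hld
  have hp := Real.pi_pos
  have hc' : 0 < Real.cos φ' := Real.cos_pos_of_mem_Ioo ⟨by linarith, by linarith⟩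
  have hd' : dd' (π / 2 + φ') (l / Real.cos φ') = l := by
    have : ¬ (π / 2 + φ' ≤ π / 2) := by linarith
    rw [dd', if_neg this, add_comm, Real.sin_add_pi_div_two]
    field_simp
  obtain ⟨t₁, q1, hq1⟩ := h2 α α' φ' l (1 / 4) ha hb ha' hf' hb' hl (by norm_num)
  obtain ⟨t₂, q2, hq2⟩ := hx
  obtain ⟨t₃, q3, hq3⟩ := cmp (N := x)
      (N' := N α' (π / 2 + φ') (l / Real.cos φ')) hd'.symm ht₀ hx'
      (hLB α' (π / 2 + φ') _ ha' (by linarith) (by linarith) (by linarith) (by positivity))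
      hA h (1 / 2) (by norm_num)
  set t := min (min (t₁ / 2) (t₂ / 2)) (min (t₃ / 2) 1) with ht
  have ht0 : 0 < t := by positivity
  have r1 : t < t₁ := lt_of_le_of_lt ((min_le_left _ _).trans (min_le_left _ _)) (by linarith)
  have r2 : t < t₂ := lt_of_le_of_lt ((min_le_left _ _).trans (min_le_right _ _)) (by linarith)
  have r3 : t < t₃ := lt_of_le_of_lt ((min_le_right _ _).trans (min_le_left _ _)) (by linarith)
  have r4 : t ≤ 1 := (min_le_right _ _).trans (min_le_right _ _)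
  obtain ⟨M, ⟨s1, s2, s3, s4⟩, s5, s6⟩ := ((hq3 t ht0 r3).and_eventually
    ((hq1 t ht0 r1).and (hq2 t ht0 r2))).exists
  generalize x t M = x at *
  generalize N α' (π / 2 + φ') (l / Real.cos φ') t M = z at *
  generalize N α (π / 2) l t M = w at *
  have g1 := (abs_le.1 s4).1
  have : 1 / 2 * t * z ≤ 1 / 2 * z := by
    have : 1 / 2 * t ≤ 1 / 2 := by linarith
    gcongr
  linarith

theorem uq_abs (hSY : SYM N) (hLB : LB N) (h0 : T0 N) (h1 : T1 N) (h2 : T2 N) (h3 : T3 N)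
    (hMON : MON N) (hMO : S_MO) (hIJ : S_IJ) (α β l α' β' l' : ℝ) (ha : 0 < α) (hab : α ≤ β)
    (hs : α + β < π) (hl : 0 < l) (ha' : 0 < α') (hab' : α' ≤ β') (hs' : α' + β' < π)
    (hl' : 0 < l') (hdd : dd' β l = dd' β' l')
    (H : ∃ A C t₀ : ℝ, dd' β l ^ 2 < A ∧ 0 < t₀ ∧ ∀ t : ℝ, 0 < t → t < t₀ → ∃ᶠ M : ℕ in atTop,
    |N α β l t M - N α' β' l' t M| ≤ C * Real.exp (-(A / t))) : l = l' ∧ α = α' ∧ β = β' := by
  have hp := Real.pi_pos
  have key1 : ∀ β l : ℝ, β ≤ π / 2 → dd' β l = l := fun β l h => by simp [dd', h]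
  have key2 : ∀ β l : ℝ, π / 2 < β → β < π → 0 < l → ∃ φ d : ℝ, 0 < φ ∧ φ < π / 2 ∧ 0 < d ∧
      β = π / 2 + φ ∧ l = d / Real.cos φ ∧ dd' β l = d := by
    intro β l h1 h2 h3
    have hc : 0 < Real.cos (β - π / 2) :=
      Real.cos_pos_of_mem_Ioo ⟨by linarith, by linarith⟩
    refine ⟨β - π / 2, l * Real.cos (β - π / 2), by linarith, by linarith, by positivity, by ring,
      (mul_div_cancel_right₀ l hc.ne').symm, ?_⟩
    rw [dd', if_neg (by linarith), Real.cos_sub_pi_div_two]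
  obtain ⟨A, C, t₀, hA, ht₀, H⟩ := H
  have H' : ∀ t : ℝ, 0 < t → t < t₀ → ∃ᶠ M : ℕ in atTop,
      |N α' β' l' t M - N α β l t M| ≤ C * Real.exp (-(A / t)) := fun t a b => by
    have := H t a b
    simp only [abs_sub_comm (N α β l t _)] at this
    exact this
  -- the mixed cases
  have mix : ∀ α β l α' β' l' : ℝ, 0 < α → α ≤ β → α + β < π → 0 < l → 0 < α' → α' ≤ β' →
      α' + β' < π → 0 < l' → dd' β l = dd' β' l' → dd' β l ^ 2 < A →
      (∀ t : ℝ, 0 < t → t < t₀ → ∃ᶠ M : ℕ in atTop,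
        |N α β l t M - N α' β' l' t M| ≤ C * Real.exp (-(A / t))) → β ≤ π / 2 → π / 2 < β' →
      False := by
    intro α β l α' β' l' ha hab hs hl ha' hab' hs' hl' hdd hA H hβ hβ'
    obtain ⟨φ, d, f1, f2, f3, rfl, rfl, f4⟩ := key2 β' l' hβ' (by linarith) hl'
    rw [key1 β l hβ, f4] at hdd
    rw [key1 β l hβ] at hA
    refine case23 (α := α) hLB h2 ha (by linarith) hl hdd ha' f1 (by linarith) hA ht₀
      (x := N α β l) ?_ ?_ H
    · rcases hβ.lt_or_eq with h | h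
      · exact hMON α β l ha (by linarith) (by linarith) h hl
      · subst h
        exact ⟨1, one_pos, fun t _ _ => Eventually.of_forall fun M => le_rfl⟩
    · have := hLB α β l ha (by linarith) (by linarith) hs hl
      rwa [key1 β l hβ] at this
  rcases le_or_gt β (π / 2) with hβ | hβ <;> rcases le_or_gt β' (π / 2) with hβ' | hβ'
  · have hll : l = l' := by rwa [key1 β l hβ, key1 β' l' hβ'] at hdd
    subst hll
    rw [key1 β l hβ] at hA
    refine ⟨rfl, ?_⟩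
    rcases hβ.lt_or_eq with hb | hb <;> rcases hβ'.lt_or_eq with hb' | hb'
    · exact case1 hSY hLB h1 hMO hIJ ha hab hb hl ha' hab' hb' hA ht₀ H
    · subst hb'
      exact (case12 hSY hLB h1 h0 hMON hMO ha hab hb hl ha' (by linarith) hA ht₀ H).elim
    · subst hb
      exact (case12 hSY hLB h1 h0 hMON hMO ha' hab' hb' hl ha (by linarith) hA ht₀ H').elim
    · subst hb
      subst hb'
      exact ⟨case2 hLB h0 hMO ha (by linarith) hl ha' (by linarith) hA ht₀ H, rfl⟩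
  · exact (mix α β l α' β' l' ha hab hs hl ha' hab' hs' hl' hdd hA H hβ hβ').elim
  · exact (mix α' β' l' α β l ha' hab' hs' hl' ha hab hs hl hdd.symm (hdd ▸ hA) H' hβ' hβ).elim
  · obtain ⟨φ, d, f1, f2, f3, rfl, rfl, f4⟩ := key2 β l hβ (by linarith) hl
    obtain ⟨φ', d', f1', f2', f3', rfl, rfl, f4'⟩ := key2 β' l' hβ' (by linarith) hl'
    rw [f4, f4'] at hdd
    subst hdd
    rw [f4] at hA
    obtain ⟨e1, e2⟩ := case3 hLB h3 hMO ha f1 (by linarith) f3 ha' f1' (by linarith) hA ht₀ H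
    subst e1
    subst e2
    exact ⟨rfl, rfl, rfl⟩

end

end Pool.Agent.N7.QDUQ
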