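import Pool.Agent.N275.QD.Def
import Pool.Agent.R225.LP.NI
import Pool.Agent.N7.QDUQ0

set_option autoImplicit false

/-!
# Project QD: injectivity of the leading term
-/

namespace Pool.Agent.N7.QDUQ

open Filter Topology Set MeasureTheory
open Pool.Agent.N275.QD
open Pool.Agent.R225.LP (NN)
open Pool.Agent.R225.LP.FP (cyc)
open scoped Real ENNReal

theorem sym_Nn : SYM Nn := by
  intro α β l t M ht hM
  unfold Nn
  rw [((Pool.Agent.R225.LP.ni.1 (-ct α) (-ct β) l t M ht hM).2.1), add_comm (ct α)]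

theorem dd_eq (β l : ℝ) : dd β l = dd' β l := rfl

theorem mon_Nn (hLB : S_LB) (hBR : S_BR) : MON Nn := by
  intro α β l ha ha' hb hb' hl
  have hp := Real.pi_pos
  obtain ⟨k, t₀, h0, h⟩ := hLB α (π / 2) l ha ha' (by linarith) (by linarith) hl
  refine ⟨t₀, h0, fun t ht0 ht1 => ?_⟩
  filter_upwards [h t ht0 ht1, eventually_gt_atTop 0] with M hM hM0
  obtain ⟨m, rfl⟩ : ∃ m, M = m + 1 := ⟨M - 1, by omega⟩
  have hpos : 0 ≤ Nn α (π / 2) l t (m + 1) := le_trans (by positivity) hM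
  rw [← ENNReal.ofReal_le_ofReal_iff hpos, hBR α β l t m ha hb (by linarith) hl ht0,
    hBR α (π / 2) l t m ha (by linarith) (by linarith) hl ht0]
  refine mul_le_mul_right (lintegral_mono fun W => mul_le_mul_right ?_ _) _
  refine Set.indicator_le_indicator_of_subset ?_ (fun _ => ?_) W
  swap
  · exact zero_le
  rintro W ⟨h1, h2, i, h3⟩
  refine ⟨h1, h2, i, ?_⟩
  rw [Real.sin_pi_div_two, Real.cos_pi_div_two, mul_one, mul_one, mul_zero, sub_zero]
  have hs : 0 < Real.sin β := Real.sin_pos_of_pos_of_lt_pi hb (by linarith)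
  have hc : 0 < Real.cos β := Real.cos_pos_of_mem_Ioo ⟨by linarith, hb'⟩
  have h4 : 0 < (W i).im := by
    have := h1 i
    simpa [Hh] using this
  by_contra h5
  push Not at h5
  nlinarith [mul_pos h4 hc]

theorem uq (h0 : S_T0) (h1 : S_T1) (h2 : S_T2) (h3 : S_T3) (hMO : S_MO) (hIJ : S_IJ)
    (hLB : S_LB) (hBR : S_BR) : S_UQ :=
  uq_abs sym_Nn hLB h0 h1 h2 h3 (mon_Nn hLB hBR) hMO hIJ

end Pool.Agent.N7.QDUQ
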