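import Pool.Agent.N652.OM.Stm

/-!
# Project OM, part CYC: the ring of the operators with a symbol is locally embeddable into finite
rings (cyclic truncations)
-/

set_option autoImplicit false

namespace Pool.Agent.N7.OMCyc

open Filter
open Pool.Agent.N652.OM

noncomputable section

/-- functions on the cyclic truncation -/
abbrev Vn (n : ℕ) := (ZMod (2 * n + 1) × Bool) →₀ F

/-- folding of the lines to cycles -/
def fo (n : ℕ) : Vc Bool →ₗ[F] Vn n :=
  Finsupp.lmapDomain F F fun w : ℤ × Bool => ((w.1 : ZMod (2 * n + 1)), w.2)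

/-- the representatives of absolute value at most `n` -/
def li (n : ℕ) : Vn n →ₗ[F] Vc Bool :=
  Finsupp.lmapDomain F F fun w : ZMod (2 * n + 1) × Bool => (w.1.valMinAbs, w.2)

/-- the truncation of an operator -/
def ta (n : ℕ) (x : MM Bool) : Module.End F (Vn n) := fo n ∘ₗ x ∘ₗ li n

lemma fo_single (n : ℕ) (w : ℤ × Bool) (c : F) :
    fo n (Finsupp.single w c) = Finsupp.single ((w.1 : ZMod (2 * n + 1)), w.2) c := by
  unfold fo
  rw [Finsupp.lmapDomain_apply, Finsupp.mapDomain_single]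

lemma li_single (n : ℕ) (w : ZMod (2 * n + 1) × Bool) (c : F) :
    li n (Finsupp.single w c) = Finsupp.single (w.1.valMinAbs, w.2) c := by
  unfold li
  rw [Finsupp.lmapDomain_apply, Finsupp.mapDomain_single]

lemma fo_li (n : ℕ) (v : Vn n) : fo n (li n v) = v := by
  have h : fo n ∘ₗ li n = LinearMap.id := by
    apply Finsupp.lhom_ext
    intro w c
    rw [LinearMap.comp_apply, li_single, fo_single, LinearMap.id_apply]
    simp
  exact LinearMap.congr_fun h v

lemma rep_eq {n : ℕ} {i : ℤ} (h : |i| ≤ n) : ((i : ZMod (2 * n + 1))).valMinAbs = i := by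
  rw [ZMod.valMinAbs_spec]
  refine ⟨rfl, ?_⟩
  rw [abs_le] at h
  rw [Set.mem_Ioc]
  push_cast
  constructor <;> linarith

lemma abs_rep_le (n : ℕ) (c : ZMod (2 * n + 1)) : |c.valMinAbs| ≤ n := by
  have h := ZMod.natAbs_valMinAbs_le c
  rw [Int.abs_eq_natAbs]
  omega

lemma li_fo_single {n : ℕ} {w : ℤ × Bool} (h : |w.1| ≤ n) (c : F) :
    li n (fo n (Finsupp.single w c)) = Finsupp.single w c := by
  rw [fo_single, li_single, rep_eq h]

lemma li_fo {n : ℕ} {v : Vc Bool} (hv : ∀ w ∈ v.support, |w.1| ≤ n) : li n (fo n v) = v := by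
  conv_lhs => rw [← Finsupp.sum_single v]
  rw [Finsupp.sum, map_sum, map_sum]
  conv_rhs => rw [← Finsupp.sum_single v]
  rw [Finsupp.sum]
  exact Finset.sum_congr rfl fun w hw => li_fo_single (hv w hw) _

/-- folding of a translate -/
lemma fo_sh (n : ℕ) (b : Bool) (i i' : ℤ) (p : LaurentPolynomial F)
    (h : (i : ZMod (2 * n + 1)) = (i' : ZMod (2 * n + 1))) : fo n (sh b i p) = fo n (sh b i' p) := by
  unfold fo sh
  rw [Finsupp.lmapDomain_apply, Finsupp.lmapDomain_apply, ← Finsupp.mapDomain_comp,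
    ← Finsupp.mapDomain_comp]
  congr 1
  funext k
  simp only [Function.comp_apply]
  push_cast
  rw [h]

lemma key_single {x : MM Bool} {p : Bool → LaurentPolynomial F} {N : ℕ}
    (hN : ∀ (b : Bool) (j : ℤ), (N : ℤ) ≤ |j| → x (Finsupp.single (j, b) 1) = sh b j (p b))
    {n L : ℕ} (hn : N + L ≤ n) {w : ℤ × Bool} (hw : |w.1| ≤ n + L) (c : F) :
    fo n (x (li n (fo n (Finsupp.single w c)))) = fo n (x (Finsupp.single w c)) := by
  rcases le_or_gt |w.1| (n : ℤ) with h | h
  · rw [li_fo_single h]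
  · obtain ⟨i, b⟩ := w
    simp only at h hw
    rw [fo_single, li_single]
    simp only
    set i' := ((i : ZMod (2 * n + 1))).valMinAbs with hi'
    have h1 : ((i' : ℤ) : ZMod (2 * n + 1)) = (i : ZMod (2 * n + 1)) := by
      rw [hi']
      exact ZMod.coe_valMinAbs _
    have h2 : |i'| ≤ n := abs_rep_le n _
    have h3 : ((2 * n + 1 : ℕ) : ℤ) ∣ i - i' := by
      rw [← ZMod.intCast_eq_intCast_iff_dvd_sub]
      exact h1
    have h4 : (N : ℤ) ≤ |i'| := by
      obtain ⟨t, ht⟩ := h3
      push_cast at ht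
      have hn' : (N : ℤ) + L ≤ n := by exact_mod_cast hn
      by_contra hcon
      push Not at hcon
      rw [abs_lt] at hcon
      rw [abs_le] at hw
      have ht1 : t < 1 ∨ 1 ≤ t := lt_or_ge t 1
      rcases lt_abs.1 h with h5 | h5
      · -- `i > n`, so `t ≥ 1`
        rcases lt_or_ge t 1 with h6 | h6
        · have : t ≤ 0 := by omega
          nlinarith
        · nlinarith
      · rcases lt_or_ge t 0 with h6 | h6
        · have : t ≤ -1 := by omega
          nlinarith
        · nlinarith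
    have h5 : (N : ℤ) ≤ |i| := by
      have hn' : (N : ℤ) + L ≤ n := by exact_mod_cast hn
      have : (0 : ℤ) ≤ L := by positivity
      linarith
    have e : ∀ k : ℤ, Finsupp.single (k, b) c = c • (Finsupp.single (k, b) (1 : F)) := by
      intro k
      rw [Finsupp.smul_single, smul_eq_mul, mul_one]
    rw [e i', e i, map_smul, map_smul, map_smul, map_smul, hN b i' h4, hN b i h5,
      fo_sh n b i' i (p b) h1]

lemma key {x : MM Bool} {p : Bool → LaurentPolynomial F} {N : ℕ}
    (hN : ∀ (b : Bool) (j : ℤ), (N : ℤ) ≤ |j| → x (Finsupp.single (j, b) 1) = sh b j (p b))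
    {n L : ℕ} (hn : N + L ≤ n) {v : Vc Bool} (hv : ∀ w ∈ v.support, |w.1| ≤ n + L) :
    fo n (x (li n (fo n v))) = fo n (x v) := by
  conv_lhs => rw [← Finsupp.sum_single v]
  conv_rhs => rw [← Finsupp.sum_single v]
  rw [Finsupp.sum, map_sum, map_sum, map_sum, map_sum, map_sum, map_sum]
  exact Finset.sum_congr rfl fun w hw => key_single hN hn (hv w hw) _

/-- the propagation of an operator with a symbol is bounded -/
lemma prop_bound {y : MM Bool} {q : Bool → LaurentPolynomial F} (hy : Sy y q) :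
    ∃ L : ℕ, ∀ (j : ℤ) (b : Bool), ∀ w ∈ (y (Finsupp.single (j, b) 1)).support, |w.1| ≤ |j| + L := by
  obtain ⟨N, hN⟩ := hy
  -- the degrees of `q`
  have h1 : ∃ L1 : ℕ, ∀ (b : Bool), ∀ k ∈ (q b).coeff.support, |k| ≤ (L1 : ℤ) := by
    refine ⟨∑ b, ∑ k ∈ (q b).coeff.support, k.natAbs, fun b k hk => ?_⟩
    have h1 : k.natAbs ≤ ∑ k ∈ (q b).coeff.support, k.natAbs :=
      Finset.single_le_sum (f := fun k : ℤ => k.natAbs) (fun _ _ => Nat.zero_le _) hk
    have h2 : ∑ k ∈ (q b).coeff.support, k.natAbs ≤ ∑ b, ∑ k ∈ (q b).coeff.support, k.natAbs :=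
      Finset.single_le_sum (f := fun b => ∑ k ∈ (q b).coeff.support, k.natAbs)
        (fun _ _ => Nat.zero_le _) (Finset.mem_univ b)
    have h3 := h1.trans h2
    rw [Int.abs_eq_natAbs]
    exact_mod_cast h3
  obtain ⟨L1, hL1⟩ := h1
  -- the finite part
  have h2 : ∃ L2 : ℕ, ∀ (j : ℤ) (b : Bool), |j| < N →
      ∀ w ∈ (y (Finsupp.single (j, b) 1)).support, |w.1| ≤ (L2 : ℤ) := by
    set S : Finset (ℤ × Bool) := ((Finset.Icc (-(N : ℤ)) N) ×ˢ (Finset.univ : Finset Bool)) with hS
    refine ⟨∑ u ∈ S, ∑ w ∈ (y (Finsupp.single u 1)).support, w.1.natAbs, fun j b hj w hw => ?_⟩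
    have hmem : (j, b) ∈ S := by
      rw [hS, Finset.mem_product, Finset.mem_Icc]
      rw [abs_lt] at hj
      exact ⟨⟨by linarith, by linarith⟩, Finset.mem_univ _⟩
    have h1 : w.1.natAbs ≤ ∑ w ∈ (y (Finsupp.single (j, b) 1)).support, w.1.natAbs :=
      Finset.single_le_sum (f := fun w : ℤ × Bool => w.1.natAbs) (fun _ _ => Nat.zero_le _) hw
    have h2 : ∑ w ∈ (y (Finsupp.single (j, b) 1)).support, w.1.natAbs ≤
        ∑ u ∈ S, ∑ w ∈ (y (Finsupp.single u 1)).support, w.1.natAbs :=
      Finset.single_le_sum (f := fun u => ∑ w ∈ (y (Finsupp.single u 1)).support, w.1.natAbs)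
        (fun _ _ => Nat.zero_le _) hmem
    have h3 := h1.trans h2
    rw [Int.abs_eq_natAbs]
    exact_mod_cast h3
  obtain ⟨L2, hL2⟩ := h2
  refine ⟨L1 + L2, fun j b w hw => ?_⟩
  rcases lt_or_ge |j| (N : ℤ) with h | h
  · have h3 := hL2 j b h w hw
    have h4 := abs_nonneg j
    push_cast
    have : (0 : ℤ) ≤ L1 := by positivity
    linarith
  · rw [hN b j h] at hw
    unfold sh at hw
    have h3 := Finsupp.mapDomain_support hw
    rw [Finset.mem_image] at h3
    obtain ⟨k, hk, rfl⟩ := h3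
    have h4 := hL1 b k hk
    have h5 := abs_add_le j k
    push_cast
    have : (0 : ℤ) ≤ L2 := by positivity
    show |j + k| ≤ _
    linarith

lemma ta_mul {x y : MM Bool} (hx : ∃ p, Sy x p) (hy : ∃ p, Sy y p) :
    ∀ᶠ n : ℕ in atTop, ta n (x * y) = ta n x * ta n y := by
  obtain ⟨p, N, hN⟩ := hx
  obtain ⟨q, hq⟩ := hy
  obtain ⟨L, hL⟩ := prop_bound hq
  filter_upwards [eventually_ge_atTop (N + L)] with n hn
  apply Finsupp.lhom_ext'
  intro w
  apply LinearMap.ext_ring
  show fo n ((x * y) (li n (Finsupp.single w 1))) =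
    fo n (x (li n (fo n (y (li n (Finsupp.single w 1))))))
  rw [li_single, Module.End.mul_apply]
  symm
  apply key hN hn
  intro u hu
  have h1 := hL _ _ u hu
  have h2 := abs_rep_le n w.1
  linarith

lemma ta_inj {x y : MM Bool} (hx : ∃ p, Sy x p) (hy : ∃ p, Sy y p) (hne : x ≠ y) :
    ∀ᶠ n : ℕ in atTop, ta n x ≠ ta n y := by
  obtain ⟨p, hp⟩ := hx
  obtain ⟨q, hq⟩ := hy
  obtain ⟨L, hL⟩ := prop_bound hp
  obtain ⟨M, hM⟩ := prop_bound hq
  have h1 : ∃ w : ℤ × Bool, x (Finsupp.single w 1) ≠ y (Finsupp.single w 1) := by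
    by_contra hcon
    push Not at hcon
    apply hne
    apply Finsupp.lhom_ext'
    intro w
    apply LinearMap.ext_ring
    exact hcon w
  obtain ⟨⟨j, b⟩, hw⟩ := h1
  filter_upwards [eventually_ge_atTop (j.natAbs + L + M)] with n hn heq
  have hn' : |j| + L + M ≤ (n : ℤ) := by
    rw [Int.abs_eq_natAbs]
    exact_mod_cast hn
  have hL0 : (0 : ℤ) ≤ L := by positivity
  have hM0 : (0 : ℤ) ≤ M := by positivity
  apply hw
  have h2 : fo n (x (Finsupp.single (j, b) 1)) = fo n (y (Finsupp.single (j, b) 1)) := by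
    have h3 := LinearMap.congr_fun heq (fo n (Finsupp.single (j, b) 1))
    have h4 : li n (fo n (Finsupp.single (j, b) (1 : F))) = Finsupp.single (j, b) 1 :=
      li_fo_single (by simp only; linarith) 1
    have h5 : fo n (x (li n (fo n (Finsupp.single (j, b) 1)))) =
      fo n (y (li n (fo n (Finsupp.single (j, b) 1)))) := h3
    rw [h4] at h5
    exact h5
  have h3 : li n (fo n (x (Finsupp.single (j, b) 1))) = x (Finsupp.single (j, b) 1) := by
    apply li_fo
    intro u hu
    have := hL j b u hu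
    linarith
  have h4 : li n (fo n (y (Finsupp.single (j, b) 1))) = y (Finsupp.single (j, b) 1) := by
    apply li_fo
    intro u hu
    have := hM j b u hu
    linarith
  rw [← h3, ← h4, h2]

theorem main : S_CYC := by
  classical
  intro A
  have h1 : ∀ᶠ n : ℕ in atTop, ∀ a ∈ A, ∀ b ∈ A, ta n (a.1 * b.1) = ta n a.1 * ta n b.1 := by
    rw [eventually_all_finset]
    intro a _
    rw [eventually_all_finset]
    intro b _
    exact ta_mul a.2 b.2
  have h2 : ∀ᶠ n : ℕ in atTop, ∀ a ∈ A, ∀ b ∈ A, a ≠ b → ta n a.1 ≠ ta n b.1 := by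
    rw [eventually_all_finset]
    intro a _
    rw [eventually_all_finset]
    intro b _
    by_cases hab : a = b
    · exact Eventually.of_forall fun n h => absurd hab h
    · filter_upwards [ta_inj a.2 b.2 (fun h => hab (Subtype.ext h))] with n hn _
      exact hn
  obtain ⟨n, hn1, hn2⟩ := (h1.and h2).exists
  have hfin : Finite (Module.End F (Vn n)) := by
    have : Finite (Vn n) := Finite.of_injective (fun v : Vn n => (v : ZMod (2 * n + 1) × Bool → F))
      DFunLike.coe_injective
    exact Finite.of_injective (fun x : Module.End F (Vn n) => (x : Vn n → Vn n))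
      DFunLike.coe_injective
  refine ⟨Module.End F (Vn n), inferInstance, hfin, fun x => ta n x.1, ?_, ?_, ?_, ?_⟩
  · show ta n (1 : MM Bool) = 1
    refine LinearMap.ext fun v => ?_
    show fo n (li n v) = v
    exact fo_li n v
  · show ta n (0 : MM Bool) = 0
    refine LinearMap.ext fun v => ?_
    show fo n 0 = 0
    exact map_zero _
  · intro a ha b hb
    refine ⟨hn1 a ha b hb, ?_⟩
    show ta n (a.1 + b.1) = ta n a.1 + ta n b.1
    refine LinearMap.ext fun v => ?_
    show fo n (a.1 (li n v) + b.1 (li n v)) = fo n (a.1 (li n v)) + fo n (b.1 (li n v))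
    exact map_add _ _ _
  · intro a ha b hb hab
    exact hn2 a ha b hb hab

end

end Pool.Agent.N7.OMCyc
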