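import Mathlib

/-!
Hecke recursions for complex sequences with arbitrary numbers `e p`: the coefficients `cC` are
the power sums, and they are the coefficients of the logarithmic derivative.
-/

set_option autoImplicit false

open Finset ArithmeticFunction

namespace Pool.Agent.N7.HeckeId

/-- complex Hecke sequences -/
structure HeckeC (e lam : ℕ → ℂ) : Prop where
  zero : lam 0 = 0
  one : lam 1 = 1
  mul : ∀ m n : ℕ, Nat.Coprime m n → lam (m * n) = lam m * lam n
  pow : ∀ p j : ℕ, p.Prime → lam (p ^ (j + 2)) = lam p * lam (p ^ (j + 1)) - e p * lam (p ^ j)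

/-- the power sum coefficients -/
noncomputable def cC (e lam : ℕ → ℂ) (n : ℕ) : ℂ :=
  lam n - (if n.minFac ^ 2 ∣ n then e n.minFac * lam (n / n.minFac ^ 2) else 0)

theorem cC_prime {e lam : ℕ → ℂ} (_ : HeckeC e lam) {p : ℕ} (hp : p.Prime) :
    cC e lam p = lam p := by
  rw [cC, hp.minFac_eq, if_neg, sub_zero]
  intro h
  have h1 := Nat.le_of_dvd hp.pos h
  have h2 := hp.two_le
  nlinarith

theorem cC_pow {e lam : ℕ → ℂ} (_ : HeckeC e lam) {p : ℕ} (hp : p.Prime) (j : ℕ) :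
    cC e lam (p ^ (j + 2)) = lam (p ^ (j + 2)) - e p * lam (p ^ j) := by
  rw [cC, hp.pow_minFac (by omega)]
  have h1 : p ^ 2 ∣ p ^ (j + 2) := Nat.pow_dvd_pow _ (by omega)
  have h2 : p ^ (j + 2) / p ^ 2 = p ^ j := by
    rw [Nat.pow_div (by omega) hp.pos]
    rfl
  rw [h2, if_pos h1]

/-- from prime powers to all integers -/
theorem glue (h g : ℕ → ℂ) (_h1 : h 1 = 1)
    (hmul : ∀ m n : ℕ, Nat.Coprime m n → h (m * n) = h m * h n)
    (hloc : ∀ p : ℕ, p.Prime → ∀ e : ℕ, ((e : ℂ) + 1) * h (p ^ (e + 1)) =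
      ∑ x ∈ antidiagonal e, g (p ^ (x.1 + 1)) * h (p ^ x.2)) :
    ∀ n : ℕ, n ≠ 0 → h n * (Real.log n : ℂ) =
      ∑ d ∈ n.divisors, (vonMangoldt d : ℂ) * g d * h (n / d) := by
  intro n
  induction n using Nat.recOnPosPrimePosCoprime with
  | zero => intro h0; exact absurd rfl h0
  | one => intro _; simp
  | prime_pow p k hp hk =>
    intro _
    obtain ⟨e, rfl⟩ : ∃ e, k = e + 1 := ⟨k - 1, by omega⟩
    rw [Nat.sum_divisors_prime_pow hp, sum_range_succ']
    simp only [pow_zero, vonMangoldt_apply_one, Complex.ofReal_zero, zero_mul, add_zero]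
    have h2 : ∀ j ∈ range (e + 1), (vonMangoldt (p ^ (j + 1)) : ℂ) * g (p ^ (j + 1)) *
        h (p ^ (e + 1) / p ^ (j + 1)) =
          (Real.log p : ℂ) * (g (p ^ (j + 1)) * h (p ^ (e - j))) := by
      intro j hj
      have hj' : j ≤ e := Nat.lt_succ_iff.1 (mem_range.1 hj)
      rw [vonMangoldt_apply_pow (by omega), vonMangoldt_apply_prime hp,
        Nat.pow_div (by omega) hp.pos]
      have h3 : e + 1 - (j + 1) = e - j := by omega
      rw [h3]
      ring
    rw [sum_congr rfl h2, ← mul_sum]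
    have h4 := Finset.Nat.sum_antidiagonal_eq_sum_range_succ
      (fun i k => g (p ^ (i + 1)) * h (p ^ k)) e
    rw [← Nat.succ_eq_add_one, ← h4, ← hloc p hp e, Nat.cast_pow, Real.log_pow]
    push_cast
    ring
  | coprime a b ha hb hab iha ihb =>
    intro _
    have ha0 : a ≠ 0 := by omega
    have hb0 : b ≠ 0 := by omega
    have iha' := iha ha0
    have ihb' := ihb hb0
    have hz : ∀ m : ℕ, ∑ d ∈ m.divisors, (vonMangoldt d : ℂ) * g d * h (a * b / d) =
        ∑ d ∈ m.divisors.filter IsPrimePow, (vonMangoldt d : ℂ) * g d * h (a * b / d) := by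
      intro m
      rw [sum_filter]
      refine sum_congr rfl fun d _ => ?_
      split_ifs with hd
      · rfl
      · rw [vonMangoldt_eq_zero_iff.2 hd, Complex.ofReal_zero, zero_mul, zero_mul]
    rw [hz, Nat.mul_divisors_filter_prime_pow hab, filter_union, sum_union, ← hz, ← hz]
    · have e1 : ∑ d ∈ a.divisors, (vonMangoldt d : ℂ) * g d * h (a * b / d) =
          (∑ d ∈ a.divisors, (vonMangoldt d : ℂ) * g d * h (a / d)) * h b := by
        rw [sum_mul]
        refine sum_congr rfl fun d hd => ?_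
        have hd' := Nat.dvd_of_mem_divisors hd
        rw [Nat.mul_div_right_comm hd', hmul _ _
          (Nat.Coprime.coprime_dvd_left (Nat.div_dvd_of_dvd hd') hab)]
        ring
      have e2 : ∑ d ∈ b.divisors, (vonMangoldt d : ℂ) * g d * h (a * b / d) =
          h a * (∑ d ∈ b.divisors, (vonMangoldt d : ℂ) * g d * h (b / d)) := by
        rw [mul_sum]
        refine sum_congr rfl fun d hd => ?_
        have hd' := Nat.dvd_of_mem_divisors hd
        rw [Nat.mul_div_assoc _ hd', hmul _ _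
          (Nat.Coprime.coprime_dvd_right (Nat.div_dvd_of_dvd hd') hab)]
        ring
      rw [e1, e2, ← iha', ← ihb', hmul a b hab, Nat.cast_mul,
        Real.log_mul (by exact_mod_cast ha0) (by exact_mod_cast hb0)]
      push_cast
      ring
    · rw [Finset.disjoint_left]
      intro d hd hd'
      rw [mem_filter] at hd hd'
      have h3 := Nat.eq_one_of_dvd_coprimes hab (Nat.dvd_of_mem_divisors hd.1)
        (Nat.dvd_of_mem_divisors hd'.1)
      rw [h3] at hd
      exact not_isPrimePow_one hd.2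

section local_identity

variable {e0 lam : ℕ → ℂ} (H : HeckeC e0 lam)

include H

theorem loc1 {p : ℕ} (hp : p.Prime) : ∀ e : ℕ, ((e : ℂ) + 1) * lam (p ^ (e + 1)) =
    ∑ x ∈ antidiagonal e, cC e0 lam (p ^ (x.1 + 1)) * lam (p ^ x.2) := by
  have key : ∀ e : ℕ, (((e : ℂ) + 1) * lam (p ^ (e + 1)) =
      ∑ x ∈ antidiagonal e, cC e0 lam (p ^ (x.1 + 1)) * lam (p ^ x.2)) ∧
      (((e : ℂ) + 2) * lam (p ^ (e + 2)) =
      ∑ x ∈ antidiagonal (e + 1), cC e0 lam (p ^ (x.1 + 1)) * lam (p ^ x.2)) := by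
    intro e
    induction e with
    | zero =>
      have h2 := H.pow p 0 hp
      have h3 := cC_pow H hp 0
      have h4 := cC_prime H hp
      rw [Finset.Nat.sum_antidiagonal_succ', Finset.Nat.antidiagonal_zero, sum_singleton,
        sum_singleton]
      simp only [zero_add, pow_zero, H.one, pow_one, mul_one] at *
      constructor
      · rw [h4]; push_cast; ring
      · rw [h4, h3, h2]; push_cast; ring
    | succ e ih =>
      obtain ⟨i1, i2⟩ := ih
      refine ⟨by push_cast at i2 ⊢; linear_combination i2, ?_⟩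
      rw [Finset.Nat.sum_antidiagonal_succ', Finset.Nat.sum_antidiagonal_succ']
      rw [Finset.Nat.sum_antidiagonal_succ'] at i2
      have h2 : ∑ x ∈ antidiagonal e, cC e0 lam (p ^ (x.1 + 1)) * lam (p ^ (x.2 + 1 + 1)) =
          lam p * ∑ x ∈ antidiagonal e, cC e0 lam (p ^ (x.1 + 1)) * lam (p ^ (x.2 + 1)) -
          e0 p * ∑ x ∈ antidiagonal e, cC e0 lam (p ^ (x.1 + 1)) * lam (p ^ x.2) := by
        rw [mul_sum, mul_sum, ← sum_sub_distrib]
        refine sum_congr rfl fun x _ => ?_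
        rw [show x.2 + 1 + 1 = x.2 + 2 from rfl, H.pow _ _ hp]
        ring
      simp only [zero_add, pow_zero, pow_one, H.one, mul_one] at i1 i2 ⊢
      rw [h2, ← i1]
      have h3 := cC_pow H hp (e + 1)
      have h4 := H.pow p (e + 1) hp
      rw [show e + 1 + 1 + 1 = e + 1 + 2 from rfl, h3]
      have i2' : ∑ x ∈ antidiagonal e, cC e0 lam (p ^ (x.1 + 1)) * lam (p ^ (x.2 + 1)) =
          ((e : ℂ) + 2) * lam (p ^ (e + 2)) - cC e0 lam (p ^ (e + 1 + 1)) := by
        linear_combination -i2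
      rw [i2', h4]
      push_cast
      rw [show e + 1 + 1 = e + 2 from rfl]
      ring
  exact fun e => (key e).1

end local_identity

theorem hecke_id (e lam : ℕ → ℂ) (H : HeckeC e lam) : ∀ n : ℕ, n ≠ 0 →
    lam n * (Real.log n : ℂ) =
      ∑ d ∈ n.divisors, (ArithmeticFunction.vonMangoldt d : ℂ) * cC e lam d * lam (n / d) :=
  glue lam (cC e lam) H.one H.mul (fun _ hp k => loc1 H hp k)

/-! ### the logarithmic derivative -/

section logder

open LSeries

theorem tsum_eq_LSeries (f : ℕ → ℂ) (h0 : f 0 = 0) (s : ℂ) :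
    (∑' n : ℕ, f n * (n : ℂ) ^ (-s)) = LSeries f s := by
  unfold LSeries
  refine tsum_congr fun n => ?_
  rcases eq_or_ne n 0 with rfl | hn
  · simp [h0]
  · rw [LSeries.term_of_ne_zero hn, Complex.cpow_neg, div_eq_mul_inv]

theorem summable_iff_LSeries (f : ℕ → ℂ) (h0 : f 0 = 0) (s : ℂ) :
    Summable (fun n : ℕ => ‖f n * (n : ℂ) ^ (-s)‖) ↔ LSeriesSummable f s := by
  unfold LSeriesSummable
  rw [summable_norm_iff]
  refine summable_congr fun n => ?_
  rcases eq_or_ne n 0 with rfl | hn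
  · simp [h0]
  · rw [LSeries.term_of_ne_zero hn, Complex.cpow_neg, div_eq_mul_inv]

/-- size of the power sum coefficients -/
theorem norm_cC_le {e lam : ℕ → ℂ} {K a : ℝ} (ha : 0 ≤ a)
    (hlam : ∀ n : ℕ, ‖lam n‖ ≤ K * (n : ℝ) ^ a) (he : ∀ p : ℕ, p.Prime → ‖e p‖ ≤ p)
    {n : ℕ} (hn : 2 ≤ n) : ‖cC e lam n‖ ≤ 2 * K * (n : ℝ) ^ (a + 1) := by
  have hn1 : (1 : ℝ) ≤ n := by exact_mod_cast (by omega : 1 ≤ n)
  have hK : 0 ≤ K := by
    have h1 := hlam 1
    rw [Nat.cast_one, Real.one_rpow, mul_one] at h1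
    exact le_trans (norm_nonneg _) h1
  have hpow : (n : ℝ) ^ (a + 1) = (n : ℝ) ^ a * n := by
    rw [Real.rpow_add (by linarith), Real.rpow_one]
  have hna : 0 ≤ (n : ℝ) ^ a := Real.rpow_nonneg (by linarith) _
  have h1 : ‖lam n‖ ≤ K * (n : ℝ) ^ (a + 1) := by
    refine (hlam n).trans ?_
    rw [hpow]
    have := mul_le_mul_of_nonneg_left hn1 (mul_nonneg hK hna)
    nlinarith
  have h2 : ‖(if n.minFac ^ 2 ∣ n then e n.minFac * lam (n / n.minFac ^ 2) else 0 : ℂ)‖ ≤
      K * (n : ℝ) ^ (a + 1) := by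
    split_ifs with hd
    · have hp : n.minFac.Prime := Nat.minFac_prime (by omega)
      rw [norm_mul, hpow]
      have h4' : n.minFac ≤ n := Nat.minFac_le (by omega)
      have h4 : ‖e n.minFac‖ ≤ n := (he _ hp).trans (by exact_mod_cast h4')
      have h5 : ‖lam (n / n.minFac ^ 2)‖ ≤ K * (n : ℝ) ^ a := by
        refine (hlam _).trans (mul_le_mul_of_nonneg_left ?_ hK)
        exact Real.rpow_le_rpow (Nat.cast_nonneg _)
          (by exact_mod_cast Nat.div_le_self _ _) ha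
      calc ‖e n.minFac‖ * ‖lam (n / n.minFac ^ 2)‖ ≤ n * (K * (n : ℝ) ^ a) :=
            mul_le_mul h4 h5 (norm_nonneg _) (by linarith)
        _ = _ := by ring
    · rw [norm_zero]
      exact mul_nonneg hK (Real.rpow_nonneg (by linarith) _)
  unfold cC
  calc _ ≤ _ := norm_sub_le _ _
    _ ≤ K * (n : ℝ) ^ (a + 1) + K * (n : ℝ) ^ (a + 1) := add_le_add h1 h2
    _ = _ := by ring

theorem norm_vM_cC_le {e lam : ℕ → ℂ} {K a : ℝ} (ha : 0 ≤ a)
    (hlam : ∀ n : ℕ, ‖lam n‖ ≤ K * (n : ℝ) ^ a) (he : ∀ p : ℕ, p.Prime → ‖e p‖ ≤ p)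
    {n : ℕ} (hn : n ≠ 0) :
    ‖(vonMangoldt n : ℂ) * cC e lam n‖ ≤ 2 * K * (n : ℝ) ^ (a + 2) := by
  have hK : 0 ≤ K := by
    have h1 := hlam 1
    rw [Nat.cast_one, Real.one_rpow, mul_one] at h1
    exact le_trans (norm_nonneg _) h1
  rcases Nat.lt_or_ge n 2 with h | h
  · have h1 : n = 1 := by omega
    subst h1
    simp only [vonMangoldt_apply_one, Complex.ofReal_zero, zero_mul, norm_zero]
    exact mul_nonneg (mul_nonneg two_pos.le hK) (Real.rpow_nonneg (Nat.cast_nonneg _) _)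
  · have hn1 : (1 : ℝ) ≤ n := by exact_mod_cast (by omega : 1 ≤ n)
    have h1 : ‖(vonMangoldt n : ℂ)‖ ≤ n := by
      rw [Complex.norm_real, Real.norm_of_nonneg vonMangoldt_nonneg]
      exact vonMangoldt_le_log.trans ((Real.log_le_sub_one_of_pos (by linarith)).trans
        (by linarith))
    have h2 := norm_cC_le ha hlam he h
    rw [norm_mul]
    have hpow : (n : ℝ) ^ (a + 2) = n * (n : ℝ) ^ (a + 1) := by
      rw [show a + 2 = 1 + (a + 1) by ring, Real.rpow_add (by linarith) 1 (a + 1), Real.rpow_one]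
    rw [hpow]
    calc _ ≤ (n : ℝ) * (2 * K * (n : ℝ) ^ (a + 1)) :=
          mul_le_mul h1 h2 (norm_nonneg _) (by linarith)
      _ = _ := by ring

/-- the logarithmic derivative of the Dirichlet series of a Hecke sequence -/
theorem logder {e lam : ℕ → ℂ} (H : HeckeC e lam) (K a : ℝ) (ha : 0 ≤ a)
    (hlam : ∀ n : ℕ, ‖lam n‖ ≤ K * (n : ℝ) ^ a) (he : ∀ p : ℕ, p.Prime → ‖e p‖ ≤ p)
    (s : ℂ) (hs : a + 3 < s.re) :
    Summable (fun n : ℕ => ‖lam n * (n : ℂ) ^ (-s)‖) ∧
    Summable (fun n : ℕ => ‖(vonMangoldt n : ℂ) * cC e lam n * (n : ℂ) ^ (-s)‖) ∧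
    HasDerivAt (fun z : ℂ => ∑' n : ℕ, lam n * (n : ℂ) ^ (-z))
      (-(∑' n : ℕ, lam n * (n : ℂ) ^ (-s)) *
        ∑' n : ℕ, (vonMangoldt n : ℂ) * cC e lam n * (n : ℂ) ^ (-s)) s ∧
    deriv (fun z : ℂ => ∑' n : ℕ, lam n * (n : ℂ) ^ (-z)) s =
      -(∑' n : ℕ, lam n * (n : ℂ) ^ (-s)) *
        ∑' n : ℕ, (vonMangoldt n : ℂ) * cC e lam n * (n : ℂ) ^ (-s) := by
  set g : ℕ → ℂ := fun n => (vonMangoldt n : ℂ) * cC e lam n with hg
  have hg0 : g 0 = 0 := by simp [hg]
  have A1 : abscissaOfAbsConv lam < s.re := by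
    refine (LSeries.abscissaOfAbsConv_le_of_le_const_mul_rpow (x := a)
      ⟨K, fun n _ => hlam n⟩).trans_lt ?_
    rw [show (a : EReal) + 1 = ((a + 1 : ℝ) : EReal) by push_cast; rfl]
    exact EReal.coe_lt_coe_iff.2 (by linarith)
  have A2 : abscissaOfAbsConv g < s.re := by
    refine (LSeries.abscissaOfAbsConv_le_of_le_const_mul_rpow (x := a + 2)
      ⟨2 * K, fun n hn => norm_vM_cC_le ha hlam he hn⟩).trans_lt ?_
    rw [show ((a + 2 : ℝ) : EReal) + 1 = ((a + 2 + 1 : ℝ) : EReal) by push_cast; rfl]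
    exact EReal.coe_lt_coe_iff.2 (by linarith)
  have hfun : (fun z : ℂ => ∑' n : ℕ, lam n * (n : ℂ) ^ (-z)) = LSeries lam := by
    funext z
    exact tsum_eq_LSeries lam H.zero z
  have hconv : LSeries (logMul lam) s = LSeries g s * LSeries lam s := by
    rw [← LSeries_convolution A2 A1]
    refine LSeries_congr (fun {n} hn => ?_) s
    rw [convolution_def]
    simp only [logMul]
    rw [← Complex.natCast_log, mul_comm, hecke_id e lam H n hn,
      Nat.sum_divisorsAntidiagonal (fun x y => g x * lam y)]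
  have hD : HasDerivAt (fun z : ℂ => ∑' n : ℕ, lam n * (n : ℂ) ^ (-z))
      (-(∑' n : ℕ, lam n * (n : ℂ) ^ (-s)) *
        ∑' n : ℕ, (vonMangoldt n : ℂ) * cC e lam n * (n : ℂ) ^ (-s)) s := by
    rw [hfun, tsum_eq_LSeries lam H.zero s, tsum_eq_LSeries g hg0 s]
    have h1 := LSeries_hasDerivAt A1
    rw [hconv] at h1
    have h2 : -(LSeries g s * LSeries lam s) = -LSeries lam s * LSeries g s := by ring
    rw [h2] at h1
    exact h1
  exact ⟨(summable_iff_LSeries lam H.zero s).2 (LSeriesSummable_of_abscissaOfAbsConv_lt_re A1),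
    (summable_iff_LSeries g hg0 s).2 (LSeriesSummable_of_abscissaOfAbsConv_lt_re A2), hD,
    hD.deriv⟩

end logder

end Pool.Agent.N7.HeckeId
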