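import Pool.Agent.N585.PA.Defs

set_option autoImplicit false

/-!
# Project PA (helper585), part 1: a register machine with complete halting problem

Leaf by helper7: `stmMach : StmMach`. The proofs repeat those of `exists_sys` in
`Pool/Agent/Helper948/Erode/Source.lean` and `exists_machine` in `Pool/Agent/N575/WK/Main.lean` with
an equivalence in place of undecidability.
-/

namespace Pool.Agent.N7.PAmach

open Turing Relation
open Turing.PartrecToTM2 (trNat trList trNum trPosNum)
open Pool.Agent.Helper948.Erode
open Pool.Agent.N585.PA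

/-- A fixed finite counter machine which halts exactly on the domain of `u`. -/
theorem exists_sys' : ∃ (Q : Type) (_ : Finite Q) (M : Sys Q Bool) (q0 : Q) (N : ℕ → ℕ),
    Computable N ∧ ∀ n, M.Halts (some q0) (ini (N n)) ↔ (u n).Dom := by
  classical
  obtain ⟨Λ, i1, i2, M, hM⟩ := Pool.Agent.Helper948.Erode.exists_machine
  have fK : Finite PartrecToTM2.K' := by
    refine Finite.of_injective (fun k : PartrecToTM2.K' => match k with
      | .main => (0 : Fin 4) | .rev => 1 | .aux => 2 | .stack => 3) ?_
    intro a b h
    cases a <;> cases b <;> simp_all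
  have fG : Finite (TM2to1.Γ' PartrecToTM2.K' (fun _ => PartrecToTM2.Γ')) :=
    inferInstanceAs (Finite (Bool × (PartrecToTM2.K' → Option PartrecToTM2.Γ')))
  let _ : Fintype (TM2to1.Γ' PartrecToTM2.K' (fun _ => PartrecToTM2.Γ')) := Fintype.ofFinite _
  let N : ℕ → ℕ := fun n => enc (sym true .cons :: (trNat n).reverse.map (sym false))
  refine ⟨Λ, i2, sys M, default, N, ?_, ?_⟩
  · have h1 := digits_computable (fun a => kap (sym false a))
    have h2 : Computable (fun n : ℕ => ((trNat n).map (fun a => kap (sym false a))).reverse) :=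
      Primrec.list_reverse.to_comp.comp h1
    have h3 := (foldr_computable
      (bas (TM2to1.Γ' PartrecToTM2.K' (fun _ => PartrecToTM2.Γ')))).comp h2
    have h4 : Computable (fun x : ℕ => kap (sym true .cons) +
        (bas (TM2to1.Γ' PartrecToTM2.K' (fun _ => PartrecToTM2.Γ'))) * x) :=
      (Primrec.nat_add.comp (Primrec.const _)
        (Primrec.nat_mul.comp (Primrec.const _) Primrec.id)).to_comp
    refine (h4.comp h3).of_eq ?_
    intro n
    have e : ∀ l : List PartrecToTM2.Γ', enc (l.map (sym false)) =
        (l.map (fun a => kap (sym false a))).foldr (fun d acc => d +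
          (bas (TM2to1.Γ' PartrecToTM2.K' (fun _ => PartrecToTM2.Γ'))) * acc) 0 := by
      intro l
      induction l with
      | nil => rfl
      | cons a l ih =>
        simp only [List.map_cons, enc, List.foldr_cons, ih]
    simp only [N, enc]
    rw [e, List.map_reverse]
  · intro n
    rw [← hM n]
    apply halts_iff
    constructor
    · have := rep_enc (sym true .cons :: (trNat n).reverse.map (sym false))
      have e : (Tape.mk₁ (sym true PartrecToTM2.Γ'.cons :: (trNat n).reverse.map
          (sym false))).right₀ = ListBlank.mk (sym true .cons ::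
            (trNat n).reverse.map (sym false)) := by
        unfold Tape.mk₁ Tape.mk₂
        rw [Tape.mk'_right₀]
      simp only [e]
      exact this
    · exact rep_zero

/-- The function `u` is universal. -/
theorem u_universal {p : ℕ → Prop} (hp : REPred p) :
    ∃ g : ℕ → ℕ, Computable g ∧ ∀ n, p n ↔ (u (g n)).Dom := by
  let f : ℕ →. ℕ := fun m => (Part.assert (p m.unpair.1) fun _ => Part.some ()).map fun _ => 0
  have hf : Partrec f := by
    have h1 : Partrec fun m : ℕ => Part.assert (p m.unpair.1) fun _ => Part.some () :=
      Partrec.comp hp (Computable.fst.comp Computable.unpair)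
    exact h1.map (Computable.const 0).to₂
  obtain ⟨c, hc⟩ := Nat.Partrec.Code.exists_code.1 (Partrec.nat_iff.1 hf)
  refine ⟨fun n => Encodable.encode (Nat.Partrec.Code.curry c n), ?_, fun n => ?_⟩
  · exact (Primrec.encode.comp
      (Nat.Partrec.Code.primrec₂_curry.comp (Primrec.const c) Primrec.id)).to_comp
  · unfold u
    rw [Denumerable.ofNat_encode, Nat.Partrec.Code.eval_curry, hc]
    have e : (Nat.unpair (Nat.pair n 0)).1 = n := by rw [Nat.unpair_pair]
    change p n ↔ ∃ _ : p (Nat.unpair (Nat.pair n 0)).1, True
    rw [e]
    constructor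
    · intro h
      exact ⟨h, trivial⟩
    · rintro ⟨h, -⟩
      exact h

/-- **A fixed register machine whose halting problem is complete for r.e. predicates.** -/
theorem stmMach : StmMach := by
  obtain ⟨Q, hQ, M, q0, N, hN, h⟩ := exists_sys'
  refine ⟨RS M, inferInstance, dm M q0 0, .d1 q0 (z0 M), fun p hp => ?_⟩
  obtain ⟨g, hg, hpg⟩ := u_universal hp
  refine ⟨fun n => N (g n), hN.comp hg, fun n => ?_⟩
  rw [hpg n, ← h (g n)]
  exact (dm_halts_iff M q0 0 q0 (ini (N (g n)))).symm

end Pool.Agent.N7.PAmach
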